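import Pool.Agent.Lib.MP_b07157_agSA.Z
import Pool.Agent.Lib.MP_b07157_agM.StrQ

/-!
# Semi-quasi-homogeneous along a set: the poles
-/

noncomputable section

namespace MPb07157

open MvPolynomial

variable {n k : ℕ}

namespace SqA

theorem weight_eq (w : Fin k → ℕ) (v : Fin k →₀ ℕ) : Finsupp.weight w v = wt w v := by
  unfold wt
  rw [Finsupp.weight_apply, Finsupp.sum_fintype _ _ fun _ => by simp]
  exact Finset.sum_congr rfl fun i _ => by rw [smul_eq_mul, mul_comm]

theorem inForm_face_eq (φ : MvPolynomial (Fin k) ℂ) (w : Fin k → ℕ) (N : ℕ) :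
    inForm φ (face φ w N) = weightedHomogeneousComponent w N φ := by
  classical
  ext v
  unfold inForm face
  rw [coeff_sum, coeff_weightedHomogeneousComponent, weight_eq]
  simp only [coeff_monomial]
  rw [Finset.sum_ite_eq']
  by_cases h1 : wt w v = N
  · rw [if_pos h1]
    split_ifs with h2
    · rfl
    · by_contra h3
      exact h2 (Finset.mem_filter.2 ⟨mem_support_iff.2 (Ne.symm h3), h1⟩)
  · rw [if_neg h1, if_neg]
    intro h2
    exact h1 (Finset.mem_filter.1 h2).2

theorem sqh_map {g : MvPolynomial (Fin k) (MvPolynomial (Fin n) ℂ)} {w : Fin k → ℕ} {N : ℕ}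
    (hge : ∀ v ∈ g.support, N ≤ wt w v) {p : Fin n → ℂ}
    (h : ∀ y : Fin k → ℂ, y ≠ 0 →
      ∃ j, eval y (pderiv j (weightedHomogeneousComponent w N (map (eval p) g))) ≠ 0) :
    Sq.Sqh (map (eval p) g) w N :=
  ⟨fun v hv => hge v (support_map_subset _ _ hv), fun y hy => by
    rw [inForm_face_eq]
    exact h y hy⟩

end SqA

open SqA in
/-- **The poles of the arcs at a stratum along which `f` is semi-quasi-homogeneous.** -/
theorem SqhAlong.seriesAt_mem {f : MvPolynomial (Fin n) ℂ} {W : Set (Fin n → ℂ)}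
    (hW : IsConstr W) {w : Fin k → ℕ} {N : ℕ} (h : SqhAlong f W w N) {s₀ : ℚ} (hs : s₀ ≠ -1)
    (hs' : s₀ * N ≠ -∑ j, (w j : ℚ)) : seriesAt f W ∈ regularAt s₀ := by
  classical
  obtain ⟨hN, hw, a, u, g, hf, hge, hp⟩ := h
  rw [← Str.iUnion_minW u fun p hpW => (hp p hpW).2.2.1,
    seriesAt_biUnion _ _ _ (fun c _ => Str.isConstr_minW u hW c)
      (fun c _ c' _ hcc => Str.disjoint_minW u W hcc)]
  refine sum_mem fun c _ => ?_
  rcases (Str.minW u W c).eq_empty_or_nonempty with he | ⟨p₀, hp₀⟩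
  · rw [he, seriesAt_empty]
    exact zero_mem _
  have hc : Function.Injective c := Str.injective_of_minorU hp₀.2.1
  rw [seriesAt_unit (a := a) fun p hpm => (hp p hpm.1).1, hf]
  have hC : Crd u c (Str.minW u W c) := ⟨Str.isConstr_minW u hW c, hc,
    fun p hpm => (hp p hpm.1).2.1, fun p hpm => by rw [← Str.eval_minorU]; exact hpm.2.1⟩
  have hH : Hyp g (Str.minW u W c) w N := ⟨hN, fun j => (hw j).1, fun j => (hw j).2, hge,
    fun p hpm => sqh_map hge (hp p hpm.1).2.2.2⟩
  exact hC.series_mem hH hs hs'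

end MPb07157
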