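import Mathlib

/-!
# Polynomials which are semi-quasi-homogeneous along a set
-/

noncomputable section

namespace MPb07157

open MvPolynomial

variable {n k : ℕ}

/-- The polynomial `f` is semi-quasi-homogeneous along `W`, with respect to the weights `w`: near the
points of `W`, `f` is a unit times `g(x; u_1, …, u_k)`, where `g(x; y)` is a polynomial in `y` whose
coefficients are polynomials in `x`, all terms of `g` have `w`-weight at least `N` in `y`, `N > w_j`,
the `u_j` are polynomials which vanish on `W` and whose differentials at the points of `W` are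
linearly independent, and for each `p ∈ W` the sum of the terms of weight `N` of `g(p; y)` has no
critical points `y ≠ 0`. -/
def SqhAlong (f : MvPolynomial (Fin n) ℂ) (W : Set (Fin n → ℂ)) (w : Fin k → ℕ) (N : ℕ) : Prop :=
  0 < N ∧ (∀ j, 0 < w j ∧ w j < N) ∧
  ∃ (a : MvPolynomial (Fin n) ℂ) (u : Fin k → MvPolynomial (Fin n) ℂ)
    (g : MvPolynomial (Fin k) (MvPolynomial (Fin n) ℂ)),
    a * f = eval u g ∧ (∀ v ∈ g.support, N ≤ ∑ j, w j * v j) ∧
    ∀ p ∈ W, eval p a ≠ 0 ∧ (∀ j, eval p (u j) = 0) ∧
      (LinearIndependent ℂ fun (j : Fin k) (l : Fin n) => eval p (pderiv l (u j))) ∧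
      ∀ y : Fin k → ℂ, y ≠ 0 →
        ∃ j, eval y (pderiv j (weightedHomogeneousComponent w N (map (eval p) g))) ≠ 0

end MPb07157
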