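import Pool.Agent.Lib.MP_b07157_agSA.Defs
import Pool.Agent.Lib.MP_b07157_agK.K1a

/-!
# Semi-quasi-homogeneous along a set: expansions
-/

noncomputable section

namespace MPb07157

open MvPolynomial

variable {n k : ℕ}

namespace SqA

/-- The jets of the `u_j` along `γ`. -/
def Yj (u : Fin k → MvPolynomial (Fin n) ℂ) {m : ℕ} (γ : Fin n × Fin (m + 1) → ℂ) :
    Fin k × Fin (m + 1) → ℂ :=
  fun q => PowerSeries.coeff (q.2 : ℕ) (aeval (arc γ) (u q.1) : PowerSeries ℂ)

/-- The part of `r`-weight `M` of `g(x; y)`. -/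
def Gf (g : MvPolynomial (Fin k) (MvPolynomial (Fin n) ℂ)) (r : Fin k → ℕ) (M : ℕ) :
    MvPolynomial (Fin n ⊕ Fin k) ℂ :=
  ∑ v ∈ g.support with wt r v = M, rename Sum.inl (coeff v g) * ∏ j, X (Sum.inr j) ^ v j

/-- The base point and the leading coefficients of the `u_j`. -/
def ld (u : Fin k → MvPolynomial (Fin n) ℂ) (r : Fin k → ℕ) {m : ℕ}
    (γ : Fin n × Fin (m + 1) → ℂ) : Fin n ⊕ Fin k → ℂ :=
  Sum.elim (fun i => γ (i, 0)) (lead0 r (Yj u γ))

namespace C2

/-- The power product as a value of a monomial. -/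
theorem Fv_monomial {N : ℕ} (v : Fin k →₀ ℕ) (Y : Fin k × Fin N → ℂ) :
    Fv (monomial v (1 : ℂ)) Y = ∏ j, arc Y j ^ v j := by
  unfold Fv
  rw [aeval_monomial, map_one, one_mul, Finsupp.prod_fintype _ _ fun _ => pow_zero _]

theorem minWt_monomial (v : Fin k →₀ ℕ) (r : Fin k → ℕ) :
    IsMinWt (monomial v (1 : ℂ)) r (wt r v) := by
  have h : (monomial v (1 : ℂ)).support = {v} := by
    rw [support_monomial, if_neg one_ne_zero]
  unfold IsMinWt
  rw [h]
  exact ⟨fun w hw => by rw [Finset.mem_singleton.1 hw], v, Finset.mem_singleton_self v, rfl⟩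

theorem inForm_monomial (v : Fin k →₀ ℕ) (r : Fin k → ℕ) :
    inForm (monomial v (1 : ℂ)) (face (monomial v (1 : ℂ)) r (wt r v)) = monomial v 1 := by
  have h : (monomial v (1 : ℂ)).support = {v} := by
    rw [support_monomial, if_neg one_ne_zero]
  unfold inForm face
  rw [h, Finset.filter_singleton, if_pos rfl, Finset.sum_singleton, coeff_monomial, if_pos rfl]

theorem dvd_monomial {N : ℕ} (v : Fin k →₀ ℕ) (r : Fin k → ℕ) {Y : Fin k × Fin N → ℂ}
    (hY : Vn r Y) : (PowerSeries.X : PowerSeries ℂ) ^ wt r v ∣ Fv (monomial v (1 : ℂ)) Y :=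
  ⟨_, Fv_eq (minWt_monomial v r) hY⟩

theorem coeff_eq_zero {p : PowerSeries ℂ} {a i : ℕ} (h : (PowerSeries.X : PowerSeries ℂ) ^ a ∣ p)
    (hi : i < a) : PowerSeries.coeff i p = 0 :=
  PowerSeries.X_pow_dvd_iff.1 h i hi

/-- Expansion of the composition. -/
theorem Fv_eval (u : Fin k → MvPolynomial (Fin n) ℂ)
    (g : MvPolynomial (Fin k) (MvPolynomial (Fin n) ℂ)) {N : ℕ} (γ : Fin n × Fin N → ℂ) :
    Fv (eval u g) γ = ∑ v ∈ g.support, (aeval (arc γ) (coeff v g) : PowerSeries ℂ) *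
      ∏ j, (aeval (arc γ) (u j) : PowerSeries ℂ) ^ v j := by
  unfold Fv
  rw [eval_eq', map_sum]
  refine Finset.sum_congr rfl fun v _ => ?_
  rw [map_mul, map_prod]
  congr 1
  exact Finset.prod_congr rfl fun j _ => map_pow _ _ _

theorem dvd_jet (u : Fin k → MvPolynomial (Fin n) ℂ) {m : ℕ} (γ : Fin n × Fin (m + 1) → ℂ)
    (j : Fin k) : (PowerSeries.X : PowerSeries ℂ) ^ (m + 1) ∣
      (aeval (arc γ) (u j) : PowerSeries ℂ) - arc (Yj u γ) j := by
  rw [PowerSeries.X_pow_dvd_iff]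
  intro s hs
  rw [map_sub, coeff_arc, dif_pos hs, sub_eq_zero]
  rfl

theorem dvd_prod (u : Fin k → MvPolynomial (Fin n) ℂ) {m : ℕ} (γ : Fin n × Fin (m + 1) → ℂ)
    (v : Fin k →₀ ℕ) : (PowerSeries.X : PowerSeries ℂ) ^ (m + 1) ∣
      (∏ j, (aeval (arc γ) (u j) : PowerSeries ℂ) ^ v j) - Fv (monomial v (1 : ℂ)) (Yj u γ) := by
  have h := (aeval_sub_mod (monomial v (1 : ℂ)) (a := fun j => aeval (arc γ) (u j))
    (b := arc (Yj u γ)) (p := fun j => PowerSeries.constantCoeff (arc (Yj u γ) j))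
    (Nat.succ_pos m) (fun _ => rfl) (dvd_jet u γ)).1
  have e : (aeval (fun j => (aeval (arc γ) (u j) : PowerSeries ℂ)) (monomial v (1 : ℂ)) :
      PowerSeries ℂ) = ∏ j, (aeval (arc γ) (u j) : PowerSeries ℂ) ^ v j := by
    rw [aeval_monomial, map_one, one_mul, Finsupp.prod_fintype _ _ fun _ => pow_zero _]
  rw [e] at h
  exact h

theorem const_arc {N : ℕ} (γ : Fin n × Fin (N + 1) → ℂ) (j : Fin n) :
    PowerSeries.constantCoeff (arc γ j) = γ (j, 0) := by
  rw [← PowerSeries.coeff_zero_eq_constantCoeff_apply, coeff_arc, dif_pos (Nat.succ_pos N)]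
  rfl

theorem const_aeval {N : ℕ} (p : MvPolynomial (Fin n) ℂ) (γ : Fin n × Fin (N + 1) → ℂ) :
    PowerSeries.constantCoeff (aeval (arc γ) p : PowerSeries ℂ) =
      eval (fun i => γ (i, 0)) p := by
  rw [constantCoeff_aeval_eq]
  congr 1
  congr 1
  exact funext fun j => const_arc γ j

theorem pderiv_inr_inl (p : MvPolynomial (Fin n) ℂ) (j : Fin k) :
    pderiv (Sum.inr j : Fin n ⊕ Fin k) (rename Sum.inl p) = 0 := by
  induction p using MvPolynomial.induction_on with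
  | C z => rw [rename_C, pderiv_C]
  | add p q hp hq => rw [map_add, map_add, hp, hq, add_zero]
  | mul_X p i hp =>
    rw [map_mul, Derivation.leibniz, hp, rename_X, pderiv_X_of_ne (by simp), smul_zero, smul_zero,
      add_zero]

theorem prod_X (v : Fin k →₀ ℕ) :
    (∏ j, (X (Sum.inr j) : MvPolynomial (Fin n ⊕ Fin k) ℂ) ^ v j) =
      rename Sum.inr (monomial v (1 : ℂ)) := by
  rw [monomial_eq, map_one, one_mul, Finsupp.prod_fintype _ _ fun _ => pow_zero _, map_prod]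
  refine Finset.prod_congr rfl fun j _ => ?_
  rw [map_pow, rename_X]

theorem eval_ld_inl (u : Fin k → MvPolynomial (Fin n) ℂ) (r : Fin k → ℕ) {m : ℕ}
    (γ : Fin n × Fin (m + 1) → ℂ) (p : MvPolynomial (Fin n) ℂ) :
    eval (ld u r γ) (rename Sum.inl p) = eval (fun i => γ (i, 0)) p := by
  rw [eval_rename]
  rfl

theorem eval_ld_inr (u : Fin k → MvPolynomial (Fin n) ℂ) (r : Fin k → ℕ) {m : ℕ}
    (γ : Fin n × Fin (m + 1) → ℂ) (p : MvPolynomial (Fin k) ℂ) :
    eval (ld u r γ) (rename Sum.inr p) = eval (lead0 r (Yj u γ)) p := by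
  rw [eval_rename]
  rfl

end C2

/-- PROOF. `aeval (arc γ) (eval u g) = ∑ v, aeval (arc γ) (coeff v g) * ∏ j, U_j ^ v j`,
`U_j = aeval (arc γ) (u j)`, and `X ^ (m + 1) ∣ U_j - arc (Yj u γ) j`. -/
theorem coeff_expand (u : Fin k → MvPolynomial (Fin n) ℂ)
    (g : MvPolynomial (Fin k) (MvPolynomial (Fin n) ℂ)) {m : ℕ} (γ : Fin n × Fin (m + 1) → ℂ)
    {i : ℕ} (hi : i ≤ m) :
    PowerSeries.coeff i (Fv (eval u g) γ) = PowerSeries.coeff i
      (∑ v ∈ g.support, (aeval (arc γ) (coeff v g) : PowerSeries ℂ) *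
        Fv (monomial v (1 : ℂ)) (Yj u γ)) := by
  rw [C2.Fv_eval, map_sum, map_sum]
  refine Finset.sum_congr rfl fun v _ => ?_
  have h := C2.coeff_eq_zero (Dvd.dvd.mul_left (C2.dvd_prod u γ v)
    (aeval (arc γ) (coeff v g) : PowerSeries ℂ)) (Nat.lt_succ_of_le hi)
  rw [mul_sub, map_sub, sub_eq_zero] at h
  exact h

/-- PROOF. `coeff_expand` and `coeff_Fv_of_lt` for `monomial v 1` (`IsMinWt (monomial v 1) r (wt r v)`). -/
theorem coeff_lt {u : Fin k → MvPolynomial (Fin n) ℂ}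
    {g : MvPolynomial (Fin k) (MvPolynomial (Fin n) ℂ)} {r : Fin k → ℕ} {M : ℕ}
    (hM : ∀ v ∈ g.support, M ≤ wt r v) {m : ℕ} {γ : Fin n × Fin (m + 1) → ℂ}
    (hY : Vn r (Yj u γ)) {i : ℕ} (hi : i < M) (him : i ≤ m) :
    PowerSeries.coeff i (Fv (eval u g) γ) = 0 := by
  rw [coeff_expand u g γ him, map_sum]
  refine Finset.sum_eq_zero fun v hv => ?_
  exact C2.coeff_eq_zero (Dvd.dvd.mul_left (C2.dvd_monomial v r hY) _)
    (lt_of_lt_of_le hi (hM v hv))

/-- PROOF. `coeff_expand`; the terms with `wt r v > M` do not contribute, for those with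
`wt r v = M` the coefficient is `eval (γ(0)) (coeff v g) * coeff M (Fv (monomial v 1) (Yj u γ))`
(`coeff_mul_of_X_pow_dvd`), `coeff_Fv_eq`. -/
theorem coeff_M {u : Fin k → MvPolynomial (Fin n) ℂ}
    {g : MvPolynomial (Fin k) (MvPolynomial (Fin n) ℂ)} {r : Fin k → ℕ} {M : ℕ}
    (hM : ∀ v ∈ g.support, M ≤ wt r v) {m : ℕ} {γ : Fin n × Fin (m + 1) → ℂ}
    (hY : Vn r (Yj u γ)) (hMm : M ≤ m) :
    PowerSeries.coeff M (Fv (eval u g) γ) = eval (ld u r γ) (Gf g r M) := by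
  rw [coeff_expand u g γ hMm, map_sum]
  unfold Gf
  rw [map_sum, Finset.sum_filter]
  refine Finset.sum_congr rfl fun v hv => ?_
  split_ifs with h
  · have h1 := C2.dvd_monomial v r hY
    have h2 := coeff_Fv_eq (C2.minWt_monomial v r) hY
    rw [C2.inForm_monomial] at h2
    rw [h] at h1 h2
    rw [coeff_mul_of_X_pow_dvd _ h1, h2, C2.const_aeval, C2.prod_X, map_mul, C2.eval_ld_inl,
      C2.eval_ld_inr]
  · exact C2.coeff_eq_zero (Dvd.dvd.mul_left (C2.dvd_monomial v r hY) _)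
      (lt_of_le_of_ne (hM v hv) (Ne.symm h))

/-- PROOF. `F(γ') - F(γ) = ∑ v C_v(γ') (Y'^v - Y^v) + ∑ v (C_v(γ') - C_v(γ)) Y^v`; the second sum is
divisible by `X ^ (r j + i + M)` and `r j ≥ 1`; for the first one use `coeff_Fv_update` for
`monomial v 1`, and `C_v(γ')(0) = eval (γ(0)) (coeff v g)`. -/
theorem coeff_up {u : Fin k → MvPolynomial (Fin n) ℂ}
    {g : MvPolynomial (Fin k) (MvPolynomial (Fin n) ℂ)} {r : Fin k → ℕ} {M : ℕ}
    (hM : ∀ v ∈ g.support, M ≤ wt r v) {m : ℕ} {γ γ' : Fin n × Fin (m + 1) → ℂ}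
    (hY : Vn r (Yj u γ)) (j : Fin k) (hrj : 1 ≤ r j) (i : ℕ) (hi : 1 ≤ i)
    (hr : r j + i < m + 1) (hMm : M + i ≤ m) (c : ℂ)
    (h0 : ∀ (l : Fin n) (s : Fin (m + 1)), (s : ℕ) < r j + i → γ' (l, s) = γ (l, s))
    (hY' : Yj u γ' = Function.update (Yj u γ) (j, ⟨r j + i, hr⟩)
      (Yj u γ (j, ⟨r j + i, hr⟩) + c)) :
    (∀ l < M + i, PowerSeries.coeff l (Fv (eval u g) γ') =
      PowerSeries.coeff l (Fv (eval u g) γ)) ∧
    PowerSeries.coeff (M + i) (Fv (eval u g) γ') =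
      PowerSeries.coeff (M + i) (Fv (eval u g) γ) +
        c * eval (ld u r γ) (pderiv (Sum.inr j) (Gf g r M)) := by
  -- the difference of the expansions
  have hcoef : ∀ v, (PowerSeries.X : PowerSeries ℂ) ^ (r j + i) ∣
      (aeval (arc γ') (coeff v g) : PowerSeries ℂ) - aeval (arc γ) (coeff v g) := by
    intro v
    refine (aeval_sub_mod (coeff v g) (a := arc γ') (b := arc γ)
      (p := fun l => PowerSeries.constantCoeff (arc γ l)) (by omega) (fun _ => rfl) ?_).1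
    intro l
    rw [PowerSeries.X_pow_dvd_iff]
    intro s hs
    rw [map_sub, coeff_arc, coeff_arc, dif_pos (by omega : s < m + 1),
      dif_pos (by omega : s < m + 1), h0 l ⟨s, by omega⟩ hs, sub_self]
  have hup : ∀ v, (∀ l < wt r v + i, PowerSeries.coeff l (Fv (monomial v (1 : ℂ)) (Yj u γ')) =
        PowerSeries.coeff l (Fv (monomial v (1 : ℂ)) (Yj u γ))) ∧
      PowerSeries.coeff (wt r v + i) (Fv (monomial v (1 : ℂ)) (Yj u γ')) =
        PowerSeries.coeff (wt r v + i) (Fv (monomial v (1 : ℂ)) (Yj u γ)) +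
          c * eval (lead0 r (Yj u γ)) (pderiv j (monomial v (1 : ℂ))) := by
    intro v
    have h1 := coeff_Fv_update (C2.minWt_monomial v r) hY j i hi hr c
    rw [C2.inForm_monomial, ← hY'] at h1
    exact h1
  have hupd : ∀ v, (PowerSeries.X : PowerSeries ℂ) ^ (wt r v + i) ∣
      Fv (monomial v (1 : ℂ)) (Yj u γ') - Fv (monomial v (1 : ℂ)) (Yj u γ) := by
    intro v
    rw [PowerSeries.X_pow_dvd_iff]
    intro s hs
    rw [map_sub, (hup v).1 s hs, sub_self]
  have hγ0 : (fun l => γ' (l, 0)) = fun l => γ (l, 0) :=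
    funext fun l => h0 l 0 (by simp only [Fin.val_zero]; omega)
  have hdec : ∀ v, (aeval (arc γ') (coeff v g) : PowerSeries ℂ) *
        Fv (monomial v (1 : ℂ)) (Yj u γ') =
      (aeval (arc γ) (coeff v g) : PowerSeries ℂ) * Fv (monomial v (1 : ℂ)) (Yj u γ) +
      ((aeval (arc γ') (coeff v g) : PowerSeries ℂ) *
        (Fv (monomial v (1 : ℂ)) (Yj u γ') - Fv (monomial v (1 : ℂ)) (Yj u γ)) +
      ((aeval (arc γ') (coeff v g) : PowerSeries ℂ) - aeval (arc γ) (coeff v g)) *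
        Fv (monomial v (1 : ℂ)) (Yj u γ)) := by
    intro v
    ring
  have hsecond : ∀ v ∈ g.support, ∀ l ≤ M + i, PowerSeries.coeff l
      (((aeval (arc γ') (coeff v g) : PowerSeries ℂ) - aeval (arc γ) (coeff v g)) *
        Fv (monomial v (1 : ℂ)) (Yj u γ)) = 0 := by
    intro v hv l hl
    have h1 := mul_dvd_mul (hcoef v) (C2.dvd_monomial v r hY)
    rw [← pow_add] at h1
    have h2 := hM v hv
    exact C2.coeff_eq_zero h1 (by omega)
  constructor
  · intro l hl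
    rw [coeff_expand u g γ' (by omega), coeff_expand u g γ (by omega), map_sum, map_sum]
    refine Finset.sum_congr rfl fun v hv => ?_
    have h2 := hM v hv
    rw [hdec v, map_add, map_add, hsecond v hv l hl.le,
      C2.coeff_eq_zero (Dvd.dvd.mul_left (hupd v) _) (by omega), add_zero, add_zero]
  · rw [coeff_expand u g γ' hMm, coeff_expand u g γ hMm, map_sum, map_sum]
    unfold Gf
    rw [map_sum, map_sum, Finset.sum_filter, Finset.mul_sum, ← Finset.sum_add_distrib]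
    refine Finset.sum_congr rfl fun v hv => ?_
    have h2 := hM v hv
    rw [hdec v, map_add, map_add, hsecond v hv _ le_rfl, add_zero]
    congr 1
    split_ifs with h
    · have h3 := hupd v
      have h4 := (hup v).2
      rw [h] at h3 h4
      rw [coeff_mul_of_X_pow_dvd _ h3, map_sub, h4, add_sub_cancel_left, C2.const_aeval, hγ0,
        C2.prod_X, Derivation.leibniz, C2.pderiv_inr_inl, smul_zero, add_zero,
        pderiv_rename Sum.inr_injective, smul_eq_mul, map_mul, C2.eval_ld_inl, C2.eval_ld_inr]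
      ring
    · rw [mul_zero]
      exact C2.coeff_eq_zero (Dvd.dvd.mul_left (hupd v) _)
        (by have := lt_of_le_of_ne h2 (Ne.symm h); omega)

end SqA

end MPb07157
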