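import Pool.Agent.Lib.MP_b07157_agK.K1a

/-!
# The Hensel step in coordinates given by a polynomial bijection
-/

noncomputable section

namespace MPb07157

open MvPolynomial

namespace SqA

theorem hensel_bij {σ τ : Type} [Fintype σ] [DecidableEq σ] [Fintype τ] [DecidableEq τ]
    {B : Set (σ → ℂ)} (hB : IsConstr B) (Φ : τ → MvPolynomial σ ℂ)
    (hinj : Set.InjOn (polyMap Φ) B) (F : (σ → ℂ) → ℂ)
    (hF : ∃ P : MvPolynomial σ ℂ, ∀ x, F x = eval x P) (q : τ)
    (hup : ∀ x ∈ B, ∀ c : ℂ, ∃ y ∈ B,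
      polyMap Φ y = Function.update (polyMap Φ x) q (polyMap Φ x q + c))
    (D : (σ → ℂ) → ℂ) (hD : ∀ x ∈ B, D x ≠ 0)
    (hFD : ∀ x ∈ B, ∀ y ∈ B, ∀ c : ℂ,
      polyMap Φ y = Function.update (polyMap Φ x) q (polyMap Φ x q + c) → F y = F x + c * D x) :
    cls {x | x ∈ B ∧ F x = 0} * L = cls B ∧
      cls {x | x ∈ B ∧ F x ≠ 0} = cls {x | x ∈ B ∧ F x = 0} * (L - 1) := by
  obtain ⟨P, hP⟩ := hF
  have hS0 : IsConstr {x | x ∈ B ∧ F x = 0} := by
    refine isConstr_setOf_and hB ?_
    simp only [hP]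
    exact isConstr_eq_zero P
  have hS1 : IsConstr {x | x ∈ B ∧ F x ≠ 0} := by
    refine isConstr_setOf_and hB ?_
    simp only [hP]
    exact isConstr_ne_zero P
  let T : Set (σ ⊕ σ → ℂ) := {z | ((fun i => z (Sum.inl i)) ∈ {x | x ∈ B ∧ F x = 0} ∧
    (fun i => z (Sum.inr i)) ∈ B) ∧ ∀ i ∈ Finset.univ.erase q,
      polyMap Φ (fun i => z (Sum.inr i)) i = polyMap Φ (fun i => z (Sum.inl i)) i}
  have hT : IsConstr T := by
    refine isConstr_setOf_and (isConstr_setOf_and (hS0.reindex Sum.inl) (hB.reindex Sum.inr))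
      (isConstr_forall_mem _ _ fun i _ => ?_)
    have h := isConstr_eq_zero (rename Sum.inr (Φ i) - rename Sum.inl (Φ i) :
      MvPolynomial (σ ⊕ σ) ℂ)
    simp only [map_sub, eval_rename, Function.comp_def, sub_eq_zero] at h
    exact h
  have hL : L = cls (Set.univ : Set (Unit → ℂ)) := by
    rw [cls_univ_eq, Fintype.card_unit, pow_one]
  have hof : ∀ x y : σ → ℂ, (∀ i ∈ Finset.univ.erase q, polyMap Φ y i = polyMap Φ x i) →
      polyMap Φ y = Function.update (polyMap Φ x) q
        (polyMap Φ x q + (polyMap Φ y q - polyMap Φ x q)) := by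
    intro x y h
    funext i
    by_cases hi : i = q
    · subst hi
      rw [Function.update_self]
      ring
    · rw [Function.update_of_ne hi]
      exact h i (Finset.mem_erase.2 ⟨hi, Finset.mem_univ i⟩)
  have h1 : cls T = cls {x | x ∈ B ∧ F x = 0} * L := by
    rw [hL, ← cls_prodSum hS0 IsConstr.univ]
    let ψ : σ ⊕ Unit → MvPolynomial (σ ⊕ σ) ℂ := Sum.elim (fun i => X (Sum.inl i))
      fun _ => rename Sum.inr (Φ q) - rename Sum.inl (Φ q)
    have hψ : ∀ z : σ ⊕ σ → ℂ, polyMap ψ z = Sum.elim (fun i => z (Sum.inl i))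
        (fun _ => polyMap Φ (fun i => z (Sum.inr i)) q -
          polyMap Φ (fun i => z (Sum.inl i)) q) := by
      intro z
      funext i
      rcases i with i | i
      · simp [polyMap, ψ]
      · simp only [polyMap, ψ, Sum.elim_inr, map_sub, eval_rename, Function.comp_def]
    refine cls_bijOn hT (isConstr_prodSum hS0 IsConstr.univ) ψ ⟨?_, ?_, ?_⟩
    · intro z hz
      rw [hψ]
      exact ⟨hz.1.1, Set.mem_univ _⟩
    · intro z hz z' hz' h
      rw [hψ, hψ] at h
      have e1 : (fun i => z (Sum.inl i)) = fun i => z' (Sum.inl i) := by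
        funext i
        exact congrFun h (Sum.inl i)
      have e2 : polyMap Φ (fun i => z (Sum.inr i)) q = polyMap Φ (fun i => z' (Sum.inr i)) q := by
        have h3 := congrFun h (Sum.inr ())
        simp only [Sum.elim_inr] at h3
        rw [e1] at h3
        exact sub_left_injective h3
      have e3 : polyMap Φ (fun i => z (Sum.inr i)) = polyMap Φ (fun i => z' (Sum.inr i)) := by
        funext i
        by_cases hi : i = q
        · rw [hi, e2]
        · have hm : i ∈ Finset.univ.erase q := Finset.mem_erase.2 ⟨hi, Finset.mem_univ i⟩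
          rw [hz.2 i hm, hz'.2 i hm, e1]
      have e4 := hinj hz.1.2 hz'.1.2 e3
      funext i
      rcases i with i | i
      · exact congrFun e1 i
      · exact congrFun e4 i
    · rintro t ⟨ht, -⟩
      obtain ⟨y, hy, hy'⟩ := hup _ ht.1 (t (Sum.inr ()))
      refine ⟨Sum.elim (fun i => t (Sum.inl i)) y, ⟨⟨ht, hy⟩, fun i hi => ?_⟩, ?_⟩
      · show polyMap Φ y i = polyMap Φ (fun i => t (Sum.inl i)) i
        rw [hy', Function.update_of_ne (Finset.ne_of_mem_erase hi)]
      · rw [hψ]
        funext i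
        rcases i with i | i
        · rfl
        · show polyMap Φ y q - polyMap Φ (fun i => t (Sum.inl i)) q = t (Sum.inr i)
          rw [hy', Function.update_self]
          ring
  have h2 : cls T = cls B := by
    have hψ : ∀ z : σ ⊕ σ → ℂ, polyMap (fun i => (X (Sum.inr i) : MvPolynomial (σ ⊕ σ) ℂ)) z =
        fun i => z (Sum.inr i) := by
      intro z
      funext i
      simp [polyMap]
    refine cls_bijOn hT hB (fun i => X (Sum.inr i)) ⟨?_, ?_, ?_⟩
    · intro z hz
      rw [hψ]
      exact hz.1.2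
    · intro z hz z' hz' h
      rw [hψ, hψ] at h
      have e1 : polyMap Φ (fun i => z' (Sum.inl i)) =
          Function.update (polyMap Φ fun i => z (Sum.inl i)) q
            (polyMap Φ (fun i => z (Sum.inl i)) q + (polyMap Φ (fun i => z' (Sum.inl i)) q -
              polyMap Φ (fun i => z (Sum.inl i)) q)) := by
        refine hof _ _ fun i hi => ?_
        rw [← hz.2 i hi, ← hz'.2 i hi, h]
      have e2 := hFD _ hz.1.1.1 _ hz'.1.1.1 _ e1
      rw [hz.1.1.2, hz'.1.1.2, zero_add] at e2
      have e3 := (mul_eq_zero.1 e2.symm).resolve_right (hD _ hz.1.1.1)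
      rw [e3, add_zero, Function.update_eq_self] at e1
      have e4 := hinj hz'.1.1.1 hz.1.1.1 e1
      funext i
      rcases i with i | i
      · exact (congrFun e4 i).symm
      · exact congrFun h i
    · intro y hy
      obtain ⟨x, hx, hx'⟩ := hup y hy (-(F y / D y))
      have e1 := hFD y hy x hx _ hx'
      rw [neg_mul, div_mul_cancel₀ _ (hD y hy), add_neg_cancel] at e1
      refine ⟨Sum.elim x y, ⟨⟨⟨hx, e1⟩, hy⟩, fun i hi => ?_⟩, ?_⟩
      · show polyMap Φ y i = polyMap Φ x i
        rw [hx', Function.update_of_ne (Finset.ne_of_mem_erase hi)]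
      · rw [hψ]
        rfl
  have h3 : cls {x | x ∈ B ∧ F x = 0} * L = cls B := h1.symm.trans h2
  refine ⟨h3, ?_⟩
  have h4 : B = {x | x ∈ B ∧ F x = 0} ∪ {x | x ∈ B ∧ F x ≠ 0} := by
    ext x
    simp only [Set.mem_union, Set.mem_ofPred_eq]
    tauto
  have h5 : cls B = cls {x | x ∈ B ∧ F x = 0} + cls {x | x ∈ B ∧ F x ≠ 0} := by
    conv_lhs => rw [h4]
    refine cls_union hS0 hS1 ?_
    rw [Set.disjoint_left]
    rintro x ⟨-, h6⟩ ⟨-, h7⟩
    exact h7 h6
  rw [mul_sub, mul_one, h3, h5]
  ring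

/-- Jets whose images agree up to the order `e - 1` agree up to this order. -/
theorem agree_of_etPoly {n : ℕ} {G : Fin n → MvPolynomial (Fin n) ℂ} {W : Set (Fin n → ℂ)}
    (hG : ∀ p ∈ W, ∀ u : Fin n → ℂ, (∀ j, ∑ j', eval p (pderiv j' (G j)) * u j' = 0) → u = 0)
    {N : ℕ} {γ δ : Fin n × Fin (N + 1) → ℂ} (hδ : δ ∈ AtW W N)
    (hb : ∀ j, γ (j, 0) = δ (j, 0)) {e : ℕ}
    (h : ∀ j (s : Fin (N + 1)), (s : ℕ) < e →
      polyMap (etPoly G N) γ (j, s) = polyMap (etPoly G N) δ (j, s)) :
    ∀ j (s : Fin (N + 1)), (s : ℕ) < e → γ (j, s) = δ (j, s) := by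
  have key : ∀ r : ℕ, r ≤ e → ∀ j (s : Fin (N + 1)), (s : ℕ) < r → γ (j, s) = δ (j, s) := by
    intro r
    induction r with
    | zero => intro _ j s hs; omega
    | succ r ih =>
      intro hre j s hs
      rcases Nat.lt_or_ge (s : ℕ) r with h1 | h1
      · exact ih (by omega) j s h1
      · have hsr : (s : ℕ) = r := by omega
        by_cases hr0 : r = 0
        · have hs0 : s = 0 := Fin.ext (by rw [hsr, hr0]; rfl)
          rw [hs0]
          exact hb j
        · have hr : r < N + 1 := by have := s.2; omega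
          have hs' : s = ⟨r, hr⟩ := Fin.ext hsr
          have hsne : (⟨r, hr⟩ : Fin (N + 1)) ≠ 0 := by
            intro h
            exact hr0 (congrArg Fin.val h)
          have hu := hG _ hδ (fun j => γ (j, ⟨r, hr⟩) - δ (j, ⟨r, hr⟩)) (by
            intro i
            have h2 := (arc_compare (G i) (Nat.pos_of_ne_zero hr0) hr (ih (by omega))).2
            have h3 := h i ⟨r, hr⟩ (by simp only; omega)
            rw [polyMap_etPoly_pos G N γ i hsne, polyMap_etPoly_pos G N δ i hsne] at h3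
            simp only at h3
            rw [h3] at h2
            exact left_eq_add.1 h2)
          have h4 := congrFun hu j
          rw [hs']
          exact sub_eq_zero.1 h4
  exact key e le_rfl

end SqA

end MPb07157
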