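import Pool.Agent.Lib.MP_b07157_agSA.C
import Pool.Agent.Lib.MP_b07157_agI.SqP2

/-!
# Semi-quasi-homogeneous along a set: the class of the zeros of the initial forms
-/

noncomputable section

namespace MPb07157

open MvPolynomial

variable {n k : ℕ}

namespace SqA

/-- The points `(p, y)`, `p ∈ W`, `y_i ≠ 0` for some `i` with `d_i = 0`. -/
def UW (W : Set (Fin n → ℂ)) (d : Fin k → ℕ) : Set (Fin n ⊕ Fin k → ℂ) := prodSum W (Sq.Ud d)

/-- The zeros of the initial form. -/
def XW (g : MvPolynomial (Fin k) (MvPolynomial (Fin n) ℂ)) (W : Set (Fin n → ℂ)) (r : Fin k → ℕ)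
    (M : ℕ) (d : Fin k → ℕ) : Set (Fin n ⊕ Fin k → ℂ) :=
  {x | x ∈ UW W d ∧ eval x (Gf g r M) = 0}

/-- The complement. -/
def YW (g : MvPolynomial (Fin k) (MvPolynomial (Fin n) ℂ)) (W : Set (Fin n → ℂ)) (r : Fin k → ℕ)
    (M : ℕ) (d : Fin k → ℕ) : Set (Fin n ⊕ Fin k → ℂ) :=
  {x | x ∈ UW W d ∧ eval x (Gf g r M) ≠ 0}

theorem isConstr_UW {W : Set (Fin n → ℂ)} (hW : IsConstr W) (d : Fin k → ℕ) :
    IsConstr (UW W d) := isConstr_prodSum hW (Sq.isConstr_Ud d)

theorem isConstr_XW (g : MvPolynomial (Fin k) (MvPolynomial (Fin n) ℂ)) {W : Set (Fin n → ℂ)}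
    (hW : IsConstr W) (r : Fin k → ℕ) (M : ℕ) (d : Fin k → ℕ) : IsConstr (XW g W r M d) :=
  isConstr_setOf_and (isConstr_UW hW d) (isConstr_eq_zero _)

theorem isConstr_YW (g : MvPolynomial (Fin k) (MvPolynomial (Fin n) ℂ)) {W : Set (Fin n → ℂ)}
    (hW : IsConstr W) (r : Fin k → ℕ) (M : ℕ) (d : Fin k → ℕ) : IsConstr (YW g W r M d) :=
  isConstr_setOf_and (isConstr_UW hW d) (isConstr_ne_zero _)

/-- The initial form of `map φ g`, as a sum over the support of `g`. -/
theorem inForm_map (g : MvPolynomial (Fin k) (MvPolynomial (Fin n) ℂ)) (r : Fin k → ℕ) (M : ℕ)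
    (φ : MvPolynomial (Fin n) ℂ →+* ℂ) :
    inForm (map φ g) (face (map φ g) r M) =
      ∑ v ∈ g.support with wt r v = M, monomial v (φ (coeff v g)) := by
  classical
  have h : face (map φ g) r M ⊆ g.support.filter fun v => wt r v = M := by
    intro v hv
    obtain ⟨h1, h2⟩ := Finset.mem_filter.1 hv
    exact Finset.mem_filter.2 ⟨support_map_subset _ _ h1, h2⟩
  unfold inForm
  rw [← Finset.sum_subset h]
  · exact Finset.sum_congr rfl fun v _ => by rw [coeff_map]
  · intro v hv hv'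
    have h1 : coeff v (map φ g) = 0 := by
      by_contra hcon
      exact hv' (Finset.mem_filter.2 ⟨mem_support_iff.2 hcon, (Finset.mem_filter.1 hv).2⟩)
    rw [coeff_map] at h1
    rw [h1, monomial_zero]

theorem Gf_eq (g : MvPolynomial (Fin k) (MvPolynomial (Fin n) ℂ)) (r : Fin k → ℕ) (M : ℕ) :
    Gf g r M = ∑ v ∈ g.support with wt r v = M,
      rename Sum.inl (coeff v g) * rename Sum.inr (monomial v (1 : ℂ)) := by
  unfold Gf
  exact Finset.sum_congr rfl fun v _ => by rw [C2.prod_X]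

/-- PROOF. The coefficients of `map (eval p) g` are `eval p (coeff v g)`, its support is contained
in that of `g`, the missing terms are zero. -/
theorem eval_Gf (g : MvPolynomial (Fin k) (MvPolynomial (Fin n) ℂ)) (r : Fin k → ℕ) (M : ℕ)
    (x : Fin n ⊕ Fin k → ℂ) :
    eval x (Gf g r M) = eval (fun j => x (Sum.inr j)) (inForm
      (map (eval fun i => x (Sum.inl i)) g) (face (map (eval fun i => x (Sum.inl i)) g) r M)) := by
  rw [inForm_map, Gf_eq, map_sum, map_sum]
  refine Finset.sum_congr rfl fun v _ => ?_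
  rw [map_mul, eval_rename, eval_rename, eval_monomial, eval_monomial, one_mul]
  rfl

/-- PROOF. As `eval_Gf`. -/
theorem eval_pderiv_Gf (g : MvPolynomial (Fin k) (MvPolynomial (Fin n) ℂ)) (r : Fin k → ℕ) (M : ℕ)
    (j : Fin k) (x : Fin n ⊕ Fin k → ℂ) :
    eval x (pderiv (Sum.inr j) (Gf g r M)) = eval (fun j => x (Sum.inr j)) (pderiv j (inForm
      (map (eval fun i => x (Sum.inl i)) g) (face (map (eval fun i => x (Sum.inl i)) g) r M))) := by
  rw [inForm_map, Gf_eq, map_sum, map_sum, map_sum, map_sum]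
  refine Finset.sum_congr rfl fun v _ => ?_
  rw [Derivation.leibniz, C2.pderiv_inr_inl, smul_zero, add_zero, smul_eq_mul, map_mul,
    eval_rename, pderiv_rename Sum.inr_injective, eval_rename, pderiv_monomial, pderiv_monomial,
    eval_monomial, eval_monomial, one_mul, mul_assoc]
  rfl

variable {w : Fin k → ℕ} {N D p p' : ℕ} {r r' d : Fin k → ℕ} {M M' K : ℕ}

/-- PROOF. `Sq.Num.nd` for `map (eval p) g`. -/
theorem exists_dir {g : MvPolynomial (Fin k) (MvPolynomial (Fin n) ℂ)} {W : Set (Fin n → ℂ)}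
    (H : ∀ q ∈ W, Sq.Sqh (map (eval q) g) w N) (h : Sq.Num w N D p r d M K)
    {x : Fin n ⊕ Fin k → ℂ} (hx : x ∈ UW W d) :
    ∃ j, eval x (pderiv (Sum.inr j) (Gf g r M)) ≠ 0 := by
  obtain ⟨j, hj⟩ := h.nd (H _ hx.1) hx.2
  exact ⟨j, by rw [eval_pderiv_Gf]; exact hj⟩

/-- `(q, y) ↦ (q, pr d y)`. -/
def px (d : Fin k → ℕ) (x : Fin n ⊕ Fin k → ℂ) : Fin n ⊕ Fin k → ℂ :=
  Sum.elim (fun i => x (Sum.inl i)) (Sq.pr d fun j => x (Sum.inr j))

theorem isConstr_px (d : Fin k → ℕ) (P : MvPolynomial (Fin n ⊕ Fin k) ℂ) :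
    IsConstr {x : Fin n ⊕ Fin k → ℂ | eval (px d x) P = 0} := by
  let φ : Fin n ⊕ Fin k → MvPolynomial (Fin n ⊕ Fin k) ℂ :=
    Sum.elim (fun i => X (Sum.inl i)) (fun j => if d j = 0 then X (Sum.inr j) else 0)
  have h : ∀ x : Fin n ⊕ Fin k → ℂ, polyMap φ x = px d x := by
    intro x
    funext j
    rcases j with i | j
    · simp only [polyMap, φ, px, Sum.elim_inl, eval_X]
    · simp only [polyMap, φ, px, Sum.elim_inr, Sq.pr]
      split_ifs <;> simp
  have h2 := (isConstr_eq_zero P).preimage φ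
  have h3 : polyMap φ ⁻¹' {x | eval x P = 0} =
      {x : Fin n ⊕ Fin k → ℂ | eval (px d x) P = 0} := by
    ext u
    simp only [Set.mem_preimage, Set.mem_ofPred_eq, h]
  rwa [h3] at h2

theorem eval_px (g : MvPolynomial (Fin k) (MvPolynomial (Fin n) ℂ)) (w : Fin k → ℕ) (N : ℕ)
    (d : Fin k → ℕ) (j : Fin k) (x : Fin n ⊕ Fin k → ℂ) :
    eval (px d x) (pderiv (Sum.inr j) (Gf g w N)) =
      eval (Sq.pr d fun j => x (Sum.inr j)) (pderiv j (inForm
        (map (eval fun i => x (Sum.inl i)) g) (face (map (eval fun i => x (Sum.inl i)) g) w N))) :=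
  eval_pderiv_Gf g w N j (px d x)

/-- The part of `UW W d` where `∂_j` is the first partial derivative which is not zero. -/
def UJW (g : MvPolynomial (Fin k) (MvPolynomial (Fin n) ℂ)) (W : Set (Fin n → ℂ)) (w : Fin k → ℕ)
    (N : ℕ) (d : Fin k → ℕ) (j : Fin k) : Set (Fin n ⊕ Fin k → ℂ) :=
  {x | x ∈ UW W d ∧ ((∀ i ∈ Finset.univ.filter (· < j),
    eval (px d x) (pderiv (Sum.inr i) (Gf g w N)) = 0) ∧
    ¬ eval (px d x) (pderiv (Sum.inr j) (Gf g w N)) = 0)}

theorem isConstr_UJW (g : MvPolynomial (Fin k) (MvPolynomial (Fin n) ℂ)) {W : Set (Fin n → ℂ)}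
    (hW : IsConstr W) (w : Fin k → ℕ) (N : ℕ) (d : Fin k → ℕ) (j : Fin k) :
    IsConstr (UJW g W w N d j) :=
  isConstr_setOf_and (isConstr_UW hW d) (isConstr_setOf_and
    (isConstr_forall_mem _ _ fun _ _ => isConstr_px d _) (isConstr_setOf_not (isConstr_px d _)))

theorem disjoint_UJW (g : MvPolynomial (Fin k) (MvPolynomial (Fin n) ℂ)) (W : Set (Fin n → ℂ))
    (w : Fin k → ℕ) (N : ℕ) (d : Fin k → ℕ) {i j : Fin k} (hij : i ≠ j) :
    Disjoint (UJW g W w N d i) (UJW g W w N d j) := by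
  rw [Set.disjoint_left]
  rintro u ⟨-, h1, h2⟩ ⟨-, h3, h4⟩
  rcases lt_or_gt_of_ne hij with h5 | h5
  · exact h2 (h3 i (Finset.mem_filter.2 ⟨Finset.mem_univ i, h5⟩))
  · exact h4 (h1 j (Finset.mem_filter.2 ⟨Finset.mem_univ j, h5⟩))

theorem UW_eq {g : MvPolynomial (Fin k) (MvPolynomial (Fin n) ℂ)} {W : Set (Fin n → ℂ)}
    (H : ∀ q ∈ W, Sq.Sqh (map (eval q) g) w N) (d : Fin k → ℕ) :
    UW W d = ⋃ j ∈ (Finset.univ : Finset (Fin k)), UJW g W w N d j := by
  classical
  ext u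
  simp only [Set.mem_iUnion, Finset.mem_univ, exists_prop, true_and]
  constructor
  · intro hu
    obtain ⟨j, hj⟩ := (H _ hu.1).iso _ (Sq.pr_ne_zero hu.2)
    rw [← eval_px] at hj
    have hne : (Finset.univ.filter fun j =>
      ¬ eval (px d u) (pderiv (Sum.inr j) (Gf g w N)) = 0).Nonempty := ⟨j, by simpa using hj⟩
    refine ⟨Finset.min' _ hne, hu, fun i hi => ?_, ?_⟩
    · by_contra hcon
      have hmem : i ∈ Finset.univ.filter fun j =>
          ¬ eval (px d u) (pderiv (Sum.inr j) (Gf g w N)) = 0 :=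
        Finset.mem_filter.2 ⟨Finset.mem_univ i, hcon⟩
      have h1 := Finset.min'_le _ i hmem
      rw [Finset.mem_filter] at hi
      exact absurd hi.2 (not_lt.2 h1)
    · exact (Finset.mem_filter.1 (Finset.min'_mem _ hne)).2
  · rintro ⟨j, hu⟩
    exact hu.1

theorem update_inl (x : Fin n ⊕ Fin k → ℂ) (j : Fin k) (t : ℂ) :
    (fun i => Function.update x (Sum.inr j) t (Sum.inl i)) = fun i => x (Sum.inl i) := by
  funext i
  exact Function.update_of_ne (by simp) _ _

theorem update_inr (x : Fin n ⊕ Fin k → ℂ) (j : Fin k) (t : ℂ) :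
    (fun i => Function.update x (Sum.inr j) t (Sum.inr i)) =
      Function.update (fun i => x (Sum.inr i)) j t := by
  funext i
  by_cases h : i = j
  · subst h
    rw [Function.update_self, Function.update_self]
  · rw [Function.update_of_ne h, Function.update_of_ne (fun h' => h (Sum.inr_injective h'))]

theorem px_update {d : Fin k → ℕ} {j : Fin k} (hj : d j ≠ 0) (x : Fin n ⊕ Fin k → ℂ) (t : ℂ) :
    px d (Function.update x (Sum.inr j) t) = px d x := by
  unfold px
  rw [update_inl, update_inr]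
  congr 1
  funext l
  unfold Sq.pr
  by_cases hl : l = j
  · rw [hl, if_neg hj, if_neg hj]
  · rw [Function.update_of_ne hl]

attribute [local irreducible] K0.instCommRing

theorem cls_XW {g : MvPolynomial (Fin k) (MvPolynomial (Fin n) ℂ)} {W : Set (Fin n → ℂ)}
    (hW : IsConstr W) (H : ∀ q ∈ W, Sq.Sqh (map (eval q) g) w N)
    (h : Sq.Num w N D p r d M K) (hK : K ≠ 0) :
    cls (XW g W r M d) * L = cls (UW W d) := by
  classical
  have h1 : XW g W r M d = ⋃ j ∈ (Finset.univ : Finset (Fin k)),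
      {x | x ∈ UJW g W w N d j ∧ eval x (Gf g r M) = 0} := by
    ext c
    unfold XW
    rw [UW_eq H d]
    simp only [Set.mem_ofPred_eq, Set.mem_iUnion, Finset.mem_univ, exists_prop, true_and]
    constructor
    · rintro ⟨⟨j, hj⟩, h0⟩
      exact ⟨j, hj, h0⟩
    · rintro ⟨j, hj, h0⟩
      exact ⟨⟨j, hj⟩, h0⟩
  have h2 : cls (⋃ j ∈ (Finset.univ : Finset (Fin k)),
      {x | x ∈ UJW g W w N d j ∧ eval x (Gf g r M) = 0}) =
      ∑ j, cls {x | x ∈ UJW g W w N d j ∧ eval x (Gf g r M) = 0} :=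
    cls_biUnion _ _
      (fun j _ => isConstr_setOf_and (isConstr_UJW g hW w N d j) (isConstr_eq_zero _))
      (fun i _ j _ hij => (disjoint_UJW g W w N d hij).mono (fun _ hx => hx.1) (fun _ hx => hx.1))
  have h3 : cls (⋃ j ∈ (Finset.univ : Finset (Fin k)), UJW g W w N d j) =
      ∑ j, cls (UJW g W w N d j) :=
    cls_biUnion _ _ (fun j _ => isConstr_UJW g hW w N d j)
      (fun i _ j _ hij => disjoint_UJW g W w N d hij)
  rw [h1, h2, UW_eq H d, h3, Finset.sum_mul]
  refine Finset.sum_congr rfl fun j _ => ?_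
  by_cases hdj : d j = K
  · refine (hensel_step (UJW g W w N d j) (isConstr_UJW g hW w N d j)
      (fun x => eval x (Gf g r M)) ⟨_, fun _ => rfl⟩ (Sum.inr j) ?_
      (fun x => eval x (pderiv (Sum.inr j) (Gf g r M))) ?_ ?_).1
    · rintro x ⟨⟨hx, i, hi, hxi⟩, h2, h3⟩ t
      have hpx : ∀ t, px d (Function.update x (Sum.inr j) t) = px d x :=
        px_update (by omega) x
      refine ⟨⟨?_, i, hi, ?_⟩, ?_, ?_⟩
      · rw [update_inl]
        exact hx
      · beta_reduce
        rw [Function.update_of_ne]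
        · exact hxi
        · intro h4
          rw [Sum.inr_injective h4] at hi
          omega
      · intro l hl
        rw [hpx]
        exact h2 l hl
      · rw [hpx]
        exact h3
    · rintro x ⟨hx, -, h3⟩
      beta_reduce
      rw [eval_px] at h3
      rw [eval_pderiv_Gf, h.eval_eq (H _ hx.1).ge h3]
      exact h3
    · rintro x ⟨hx, -, -⟩ t
      beta_reduce
      rw [eval_Gf, eval_Gf, eval_pderiv_Gf, update_inl, update_inr, Sq.eval_pderiv_inForm]
      unfold inForm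
      rw [map_sum, map_sum, Finset.mul_sum, ← Finset.sum_add_distrib]
      refine Finset.sum_congr rfl fun v hv => ?_
      refine Sq.eval_update_monomial (fun i => x (Sum.inr i)) j t _ ?_
      by_contra hcon
      have h4 := (h.gd (H _ hx.1).ge hdj hv (by omega)).2.2 j (by
        rw [Finsupp.tsub_apply, Finsupp.single_eq_same]
        omega)
      omega
  · have h2 : UJW g W w N d j = ∅ := by
      rw [Set.eq_empty_iff_forall_notMem]
      rintro x ⟨-, -, h3⟩
      rw [eval_px] at h3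
      exact hdj (h.dir h3)
    have h3 : {x | x ∈ UJW g W w N d j ∧ eval x (Gf g r M) = 0} = ∅ := by
      rw [h2]
      ext c
      simp
    rw [h3, h2, cls_empty, zero_mul]

theorem XW_eq_of_zero {g : MvPolynomial (Fin k) (MvPolynomial (Fin n) ℂ)} {W : Set (Fin n → ℂ)}
    (H : ∀ q ∈ W, Sq.Sqh (map (eval q) g) w N) (h : Sq.Num w N D p r d M 0)
    (h' : Sq.Num w N D p' r' d M' 0) : XW g W r M d = XW g W r' M' d := by
  have key : ∀ x : Fin n ⊕ Fin k → ℂ, x ∈ UW W d →
      (eval x (Gf g r M) = 0 ↔ eval x (Gf g r' M') = 0) := by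
    intro x hx
    have h1 := h.XU_eq_of_zero (H _ hx.1) Set.univ
    rw [← h'.XU_eq_of_zero (H _ hx.1) Set.univ] at h1
    have h2 := Set.ext_iff.1 h1 fun j => x (Sum.inr j)
    simp only [Sq.XU, Set.mem_ofPred_eq, Set.mem_univ, true_and] at h2
    rw [eval_Gf, eval_Gf]
    exact h2
  ext x
  constructor
  · rintro ⟨hx, h0⟩
    exact ⟨hx, (key x hx).1 h0⟩
  · rintro ⟨hx, h0⟩
    exact ⟨hx, (key x hx).2 h0⟩

/-- PROOF. As `Sq.Num.clsM_XU`: for `K = 0` both sets are equal (`Sq.Num.XU_eq_of_zero` for each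
`map (eval q) g`); for `K ≠ 0`, `cls (XW g W r M d) * L = cls (UW W d)` as in `Sq.Num.cls_XU`:
partition `UW W d` by the first `j` with `∂_j ≠ 0` at `(q, pr d y)`, in
`hensel_step` the coordinate is `Sum.inr j`. -/
theorem clsM_XW {g : MvPolynomial (Fin k) (MvPolynomial (Fin n) ℂ)} {W : Set (Fin n → ℂ)}
    (hW : IsConstr W) (H : ∀ q ∈ W, Sq.Sqh (map (eval q) g) w N)
    (h : Sq.Num w N D p r d M K) (h' : Sq.Num w N D p' r' d M' K) :
    clsM (XW g W r M d) = clsM (XW g W r' M' d) := by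
  by_cases hK : K = 0
  · subst hK
    rw [XW_eq_of_zero H h h']
  · have h1 := congrArg (algebraMap K0 Mot) (cls_XW hW H h hK)
    have h2 := congrArg (algebraMap K0 Mot) (cls_XW hW H h' hK)
    rw [map_mul, ← LU_val] at h1 h2
    unfold clsM
    have h3 := h1.trans h2.symm
    exact (LU.isUnit.mul_left_inj).1 h3

theorem clsM_YW (g : MvPolynomial (Fin k) (MvPolynomial (Fin n) ℂ)) (r : Fin k → ℕ) (M : ℕ)
    (d : Fin k → ℕ) {W : Set (Fin n → ℂ)} (hW : IsConstr W) :
    clsM (YW g W r M d) = clsM (UW W d) - clsM (XW g W r M d) := by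
  have h1 : UW W d = XW g W r M d ∪ YW g W r M d := by
    ext c
    simp only [XW, YW, Set.mem_union, Set.mem_ofPred_eq]
    tauto
  have h2 : cls (UW W d) = cls (XW g W r M d) + cls (YW g W r M d) := by
    conv_lhs => rw [h1]
    refine cls_union (isConstr_XW g hW r M d) (isConstr_YW g hW r M d) ?_
    rw [Set.disjoint_left]
    rintro c ⟨-, h3⟩ ⟨-, h4⟩
    exact h4 h3
  unfold clsM
  rw [h2, map_add]
  ring

end SqA

end MPb07157
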