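import Pool.Agent.Lib.MP_b07157_agSA.H
import Pool.Agent.Lib.MP_b07157_agSA.X

/-!
# Semi-quasi-homogeneous along a set: the measure of the arcs with given leading coefficients
-/

noncomputable section

namespace MPb07157

open MvPolynomial

variable {n k : ℕ}

namespace SqA

/-- The `u_j` vanish on `W` and can be used as coordinates in place of the `x_{c j}`. -/
structure Crd (u : Fin k → MvPolynomial (Fin n) ℂ) (c : Fin k → Fin n) (W : Set (Fin n → ℂ)) :
    Prop where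
  hW : IsConstr W
  hc : Function.Injective c
  hu : ∀ p ∈ W, ∀ j, eval p (u j) = 0
  det : ∀ p ∈ W, (Matrix.of fun i j => eval p (pderiv (c j) (u i))).det ≠ 0

/-- The coordinates on the jets. -/
def Ph (u : Fin k → MvPolynomial (Fin n) ℂ) (c : Fin k → Fin n) (m : ℕ) :
    Fin n × Fin (m + 1) → MvPolynomial (Fin n × Fin (m + 1)) ℂ := etPoly (etG u c) m

variable {u : Fin k → MvPolynomial (Fin n) ℂ} {c : Fin k → Fin n} {W : Set (Fin n → ℂ)} {m : ℕ}

theorem Crd.bij (h : Crd u c W) : Set.BijOn (polyMap (Ph u c m)) (AtW W m) (AtW W m) :=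
  bijOn_etPoly (fun p hp v hv => etG_nondeg h.hc (h.det p hp) v hv) m

theorem Ph_zero (γ : Fin n × Fin (m + 1) → ℂ) (l : Fin n) :
    polyMap (Ph u c m) γ (l, 0) = γ (l, 0) := polyMap_etPoly_zero _ _ _ _

theorem Crd.Ph_pos (h : Crd u c W) (γ : Fin n × Fin (m + 1) → ℂ) (j : Fin k) {s : Fin (m + 1)}
    (hs : s ≠ 0) : polyMap (Ph u c m) γ (c j, s) = Yj u γ (j, s) := by
  unfold Ph Yj
  rw [polyMap_etPoly_pos _ _ _ _ hs, etG_apply u h.hc]

theorem Crd.Yj_zero (h : Crd u c W) {γ : Fin n × Fin (m + 1) → ℂ} (hγ : γ ∈ AtW W m) (j : Fin k) :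
    Yj u γ (j, 0) = 0 := by
  unfold Yj
  rw [Fin.val_zero, PowerSeries.coeff_zero_eq_constantCoeff_apply, constantCoeff_aeval_eq]
  have e : (fun j => PowerSeries.constantCoeff (arc γ j)) = fun i => γ (i, 0) := by
    funext j
    rw [← PowerSeries.coeff_zero_eq_constantCoeff_apply, coeff_arc, dif_pos (Nat.succ_pos m)]
    rfl
  rw [e]
  exact h.hu _ hγ j

theorem Crd.exists_up (h : Crd u c W) {γ : Fin n × Fin (m + 1) → ℂ} (hγ : γ ∈ AtW W m)
    (j : Fin k) {s : Fin (m + 1)} (hs : s ≠ 0) (a : ℂ) : ∃ γ' ∈ AtW W m,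
      polyMap (Ph u c m) γ' = Function.update (polyMap (Ph u c m) γ) (c j, s)
        (polyMap (Ph u c m) γ (c j, s) + a) := by
  have h1 : Function.update (polyMap (Ph u c m) γ) (c j, s)
      (polyMap (Ph u c m) γ (c j, s) + a) ∈ AtW W m := by
    show (fun i => Function.update (polyMap (Ph u c m) γ) (c j, s)
      (polyMap (Ph u c m) γ (c j, s) + a) (i, 0)) ∈ W
    have e : (fun i => Function.update (polyMap (Ph u c m) γ) (c j, s)
        (polyMap (Ph u c m) γ (c j, s) + a) (i, 0)) = fun i => γ (i, 0) := by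
      funext i
      rw [Function.update_of_ne, Ph_zero]
      intro h2
      exact hs (congrArg Prod.snd h2).symm
    rw [e]
    exact hγ
  obtain ⟨γ', h2, h3⟩ := h.bij.surjOn h1
  exact ⟨γ', h2, h3⟩

/-- Consequences of a change of one coefficient of one `u_j`. -/
theorem Crd.up (h : Crd u c W) {γ γ' : Fin n × Fin (m + 1) → ℂ} (hγ : γ ∈ AtW W m)
    (hγ' : γ' ∈ AtW W m) {j : Fin k} {s : Fin (m + 1)} (hs : s ≠ 0) {a : ℂ}
    (he : polyMap (Ph u c m) γ' = Function.update (polyMap (Ph u c m) γ) (c j, s)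
      (polyMap (Ph u c m) γ (c j, s) + a)) :
    (∀ (l : Fin n) (t : Fin (m + 1)), (t : ℕ) < s → γ' (l, t) = γ (l, t)) ∧
    Yj u γ' = Function.update (Yj u γ) (j, s) (Yj u γ (j, s) + a) := by
  constructor
  · refine agree_of_etPoly (fun p hp v hv => etG_nondeg h.hc (h.det p hp) v hv) hγ (fun l => ?_)
      fun l t ht => ?_
    · have h1 := congrFun he (l, 0)
      rw [Function.update_of_ne, Ph_zero, Ph_zero] at h1
      · exact h1
      · intro h2
        exact hs (congrArg Prod.snd h2).symm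
    · have h1 := congrFun he (l, t)
      rw [Function.update_of_ne] at h1
      · exact h1
      · intro h2
        have h3 := congrArg Prod.snd h2
        simp only at h3
        rw [h3] at ht
        exact lt_irrefl _ ht
  · funext ⟨i, t⟩
    by_cases ht : t = 0
    · subst ht
      rw [h.Yj_zero hγ', Function.update_of_ne, h.Yj_zero hγ]
      intro h2
      exact hs (congrArg Prod.snd h2).symm
    · rw [← h.Ph_pos γ' i ht, he]
      by_cases hit : (i, t) = (j, s)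
      · rw [hit, Function.update_self]
        have h1 : i = j := congrArg Prod.fst hit
        have h2 : t = s := congrArg Prod.snd hit
        subst h1
        subst h2
        rw [Function.update_self, h.Ph_pos γ i ht]
      · rw [Function.update_of_ne hit, Function.update_of_ne, h.Ph_pos γ i ht]
        intro h2
        apply hit
        have h3 := h.hc (congrArg Prod.fst h2)
        have h4 := congrArg Prod.snd h2
        simp only at h4
        rw [h3, h4]

/-- The jets at `W` with leading coefficients in `A`. -/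
def LAW (u : Fin k → MvPolynomial (Fin n) ℂ) (W : Set (Fin n → ℂ)) (m : ℕ) (r : Fin k → ℕ)
    (A : Set (Fin n ⊕ Fin k → ℂ)) : Set (Fin n × Fin (m + 1) → ℂ) :=
  {γ | γ ∈ AtW W m ∧ Vn r (Yj u γ) ∧ ld u r γ ∈ A}

theorem isConstr_Yj (u : Fin k → MvPolynomial (Fin n) ℂ) (m : ℕ) (q : Fin k × Fin (m + 1)) :
    IsConstr {γ : Fin n × Fin (m + 1) → ℂ | Yj u γ q = 0} := isConstr_coeff (u q.1) (m + 1) q.2

theorem isConstr_VnY (u : Fin k → MvPolynomial (Fin n) ℂ) (m : ℕ) (r : Fin k → ℕ) :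
    IsConstr {γ : Fin n × Fin (m + 1) → ℂ | Vn r (Yj u γ)} := by
  have h := isConstr_forall_mem (σ := Fin n × Fin (m + 1))
    (Finset.univ.filter fun q : Fin k × Fin (m + 1) => (q.2 : ℕ) < r q.1)
    (fun q γ => Yj u γ q = 0) (fun q _ => isConstr_Yj u m q)
  have e : {γ : Fin n × Fin (m + 1) → ℂ | Vn r (Yj u γ)} = {γ | ∀ q ∈
      (Finset.univ.filter fun q : Fin k × Fin (m + 1) => (q.2 : ℕ) < r q.1), Yj u γ q = 0} := by
    ext γ
    simp only [Set.mem_ofPred_eq, Vn, Finset.mem_filter, Finset.mem_univ, true_and, Prod.forall]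
  rw [e]
  exact h

theorem isConstr_ld (u : Fin k → MvPolynomial (Fin n) ℂ) {r : Fin k → ℕ} (hr : ∀ j, r j ≤ m)
    {A : Set (Fin n ⊕ Fin k → ℂ)} (hA : IsConstr A) :
    IsConstr {γ : Fin n × Fin (m + 1) → ℂ | ld u r γ ∈ A} := by
  let ψ : Fin n ⊕ Fin k → MvPolynomial (Fin n × Fin (m + 1)) ℂ :=
    Sum.elim (fun i => X (i, 0)) fun j => (exists_coeff_poly (N := m + 1) (u j) (r j)).choose
  have hψ : ∀ γ : Fin n × Fin (m + 1) → ℂ, polyMap ψ γ = ld u r γ := by
    intro γ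
    funext i
    rcases i with i | j
    · simp [polyMap, ψ, ld]
    · show eval γ (exists_coeff_poly (N := m + 1) (u j) (r j)).choose = lead0 r (Yj u γ) j
      rw [lead0, dif_pos (Nat.lt_succ_of_le (hr j))]
      exact ((exists_coeff_poly (N := m + 1) (u j) (r j)).choose_spec γ).symm
  have h := hA.preimage ψ
  have e : polyMap ψ ⁻¹' A = {γ : Fin n × Fin (m + 1) → ℂ | ld u r γ ∈ A} := by
    ext γ
    rw [Set.mem_preimage, hψ]
    rfl
  rwa [e] at h

theorem Crd.isConstr_LAW (h : Crd u c W) {r : Fin k → ℕ} (hr : ∀ j, r j ≤ m)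
    {A : Set (Fin n ⊕ Fin k → ℂ)} (hA : IsConstr A) : IsConstr (LAW u W m r A) :=
  isConstr_setOf_and (isConstr_AtW h.hW m)
    (isConstr_setOf_and (isConstr_VnY u m r) (isConstr_ld u hr hA))

theorem ld_inr {r : Fin k → ℕ} (hr : ∀ j, r j ≤ m) (γ : Fin n × Fin (m + 1) → ℂ) (j : Fin k) :
    ld u r γ (Sum.inr j) = Yj u γ (j, ⟨r j, Nat.lt_succ_of_le (hr j)⟩) := by
  show lead0 r (Yj u γ) j = _
  rw [lead0, dif_pos (Nat.lt_succ_of_le (hr j))]

theorem Crd.cls_LAW (h : Crd u c W) {r : Fin k → ℕ} (hr1 : ∀ j, 1 ≤ r j) (hr : ∀ j, r j ≤ m)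
    {A : Set (Fin n ⊕ Fin k → ℂ)} (hA : IsConstr A)
    (hAW : ∀ x ∈ A, (fun i => x (Sum.inl i)) ∈ W) {Q : ℕ}
    (hQ : n * (m + 1) = n + ∑ j, r j + Q) :
    cls (LAW u W m r A) = cls A * L ^ Q := by
  classical
  let e : Fin n ⊕ Fin k → Fin n × Fin (m + 1) :=
    Sum.elim (fun i => (i, 0)) fun j => (c j, ⟨r j, Nat.lt_succ_of_le (hr j)⟩)
  have he : Function.Injective e := by
    rintro (a | a) (b | b) h'
    · exact congrArg Sum.inl (congrArg Prod.fst h')
    · exfalso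
      have h1 := congrArg Fin.val (congrArg Prod.snd h')
      have h2 := hr1 b
      simp [e] at h1
      omega
    · exfalso
      have h1 := congrArg Fin.val (congrArg Prod.snd h')
      have h2 := hr1 a
      simp [e] at h1
      omega
    · exact congrArg Sum.inr (h.hc (congrArg Prod.fst h'))
  have hZ : ∀ i, e i ∉ zPos c m r := by
    rintro (a | a) h'
    · rw [mem_zPos] at h'
      obtain ⟨_, _, h2, _⟩ := h'
      exact h2 rfl
    · rw [mem_zPos] at h'
      obtain ⟨i, h1, _, h2⟩ := h'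
      have h3 : i = a := h.hc h1
      rw [h3] at h2
      simp [e] at h2
  have hsum : ∑ i, (r i - 1) + k = ∑ i, r i := by
    have : ∑ i : Fin k, r i = ∑ i : Fin k, ((r i - 1) + 1) :=
      Finset.sum_congr rfl fun i _ => (Nat.sub_add_cancel (hr1 i)).symm
    rw [this, Finset.sum_add_distrib]
    simp
  have hcell := cls_cell e he A hA (zPos c m r) hZ Q (by
    rw [card_zPos h.hc hr, Fintype.card_prod, Fintype.card_sum, Fintype.card_fin,
      Fintype.card_fin, Fintype.card_fin]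
    omega)
  rw [← hcell]
  have hD : IsConstr {x : Fin n × Fin (m + 1) → ℂ | (fun i => x (e i)) ∈ A ∧
      ∀ j ∈ zPos c m r, x j = 0} := by
    refine isConstr_setOf_and (hA.reindex e) (isConstr_forall_mem _ _ fun j _ => ?_)
    have := isConstr_eq_zero (X j : MvPolynomial (Fin n × Fin (m + 1)) ℂ)
    simpa using this
  have hiff : ∀ γ ∈ AtW W m, γ ∈ LAW u W m r A ↔
      polyMap (Ph u c m) γ ∈ {x : Fin n × Fin (m + 1) → ℂ | (fun i => x (e i)) ∈ A ∧
        ∀ j ∈ zPos c m r, x j = 0} := by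
    intro γ hγ
    have e1 : (fun i => polyMap (Ph u c m) γ (e i)) = ld u r γ := by
      funext i
      rcases i with i | j
      · exact Ph_zero γ i
      · have hne : (⟨r j, Nat.lt_succ_of_le (hr j)⟩ : Fin (m + 1)) ≠ 0 := by
          intro h1
          have h2 := congrArg Fin.val h1
          have h3 := hr1 j
          simp only [Fin.val_zero] at h2
          omega
        rw [ld_inr hr]
        exact h.Ph_pos γ j hne
    have e2 : (∀ q ∈ zPos c m r, polyMap (Ph u c m) γ q = 0) ↔ Vn r (Yj u γ) := by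
      constructor
      · intro h1 j s hs
        by_cases hs0 : s = 0
        · rw [hs0]
          exact h.Yj_zero hγ j
        · rw [← h.Ph_pos γ j hs0]
          exact h1 _ (mem_zPos.2 ⟨j, rfl, hs0, hs⟩)
      · intro h1 q hq
        obtain ⟨j, h2, h3, h4⟩ := mem_zPos.1 hq
        have h5 : q = (c j, q.2) := Prod.ext h2.symm rfl
        rw [h5, h.Ph_pos γ j h3]
        exact h1 j q.2 h4
    simp only [LAW, Set.mem_ofPred_eq, e1, e2]
    constructor
    · rintro ⟨-, h1, h2⟩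
      exact ⟨h2, h1⟩
    · rintro ⟨h2, h1⟩
      exact ⟨hγ, h1, h2⟩
  refine cls_bijOn (h.isConstr_LAW hr hA) hD (Ph u c m) ⟨?_, ?_, ?_⟩
  · intro γ hγ
    exact (hiff γ hγ.1).1 hγ
  · intro γ hγ γ' hγ' h1
    exact h.bij.injOn hγ.1 hγ'.1 h1
  · intro δ hδ
    have h1 : δ ∈ AtW W m := by
      have h2 := hAW _ hδ.1
      exact h2
    obtain ⟨γ, h2, rfl⟩ := h.bij.surjOn h1
    exact ⟨γ, (hiff γ h2).2 hδ, rfl⟩

/-! ### The Hensel chain -/

/-- The jets in `LAW A` along which `g(x; u)` vanishes to order `> M + i`. -/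
def BAW (u : Fin k → MvPolynomial (Fin n) ℂ) (g : MvPolynomial (Fin k) (MvPolynomial (Fin n) ℂ))
    (W : Set (Fin n → ℂ)) (m : ℕ) (r : Fin k → ℕ) (M : ℕ) (A : Set (Fin n ⊕ Fin k → ℂ)) (i : ℕ) :
    Set (Fin n × Fin (m + 1) → ℂ) :=
  {γ | γ ∈ LAW u W m r A ∧ ∀ l ∈ Finset.Icc 1 i,
    PowerSeries.coeff (M + l) (Fv (eval u g) γ) = 0}

variable {g : MvPolynomial (Fin k) (MvPolynomial (Fin n) ℂ)} {r : Fin k → ℕ} {M : ℕ}
  {A : Set (Fin n ⊕ Fin k → ℂ)}

theorem Crd.isConstr_BAW (h : Crd u c W) (hr : ∀ j, r j ≤ m) (hA : IsConstr A) (i : ℕ) :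
    IsConstr (BAW u g W m r M A i) :=
  isConstr_setOf_and (h.isConstr_LAW hr hA)
    (isConstr_forall_mem _ _ fun _ _ => isConstr_coeff _ _ _)

theorem Crd.hensel_BAW (h : Crd u c W) (hM : ∀ v ∈ g.support, M ≤ wt r v) (hr1 : ∀ j, 1 ≤ r j)
    (hr : ∀ j, r j ≤ m) (hA : IsConstr A) (j : Fin k)
    (hj : ∀ x ∈ A, eval x (pderiv (Sum.inr j) (Gf g r M)) ≠ 0) {i : ℕ}
    (hi : r j + (i + 1) ≤ m) (hMi : M + (i + 1) ≤ m) :
    cls (BAW u g W m r M A (i + 1)) * L = cls (BAW u g W m r M A i) ∧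
    cls {γ | γ ∈ BAW u g W m r M A i ∧
      PowerSeries.coeff (M + (i + 1)) (Fv (eval u g) γ) ≠ 0} =
      cls (BAW u g W m r M A (i + 1)) * (L - 1) := by
  classical
  have hB : {x | x ∈ BAW u g W m r M A i ∧
      PowerSeries.coeff (M + (i + 1)) (Fv (eval u g) x) = 0} = BAW u g W m r M A (i + 1) := by
    ext γ
    simp only [BAW, Set.mem_ofPred_eq, Finset.mem_Icc]
    constructor
    · rintro ⟨⟨h1, h2⟩, h3⟩
      refine ⟨h1, fun l hl => ?_⟩
      rcases Nat.lt_or_ge l (i + 1) with h4 | h4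
      · exact h2 l ⟨hl.1, by omega⟩
      · rw [show l = i + 1 by omega]; exact h3
    · rintro ⟨h1, h2⟩
      exact ⟨⟨h1, fun l hl => h2 l ⟨hl.1, by omega⟩⟩, h2 (i + 1) ⟨by omega, le_rfl⟩⟩
  have hlt : r j + (i + 1) < m + 1 := Nat.lt_succ_of_le hi
  have hs : (⟨r j + (i + 1), hlt⟩ : Fin (m + 1)) ≠ 0 := by
    intro h1
    have h2 := congrArg Fin.val h1
    simp only [Fin.val_zero] at h2
    omega
  have key : ∀ γ ∈ BAW u g W m r M A i, ∀ γ' ∈ AtW W m, ∀ a : ℂ,
      polyMap (Ph u c m) γ' = Function.update (polyMap (Ph u c m) γ)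
        (c j, ⟨r j + (i + 1), hlt⟩) (polyMap (Ph u c m) γ (c j, ⟨r j + (i + 1), hlt⟩) + a) →
      γ' ∈ BAW u g W m r M A i ∧ PowerSeries.coeff (M + (i + 1)) (Fv (eval u g) γ') =
        PowerSeries.coeff (M + (i + 1)) (Fv (eval u g) γ) +
          a * eval (ld u r γ) (pderiv (Sum.inr j) (Gf g r M)) := by
    rintro γ ⟨⟨h1, h2, h3⟩, h4⟩ γ' hγ' a he
    obtain ⟨h5, h6⟩ := h.up h1 hγ' hs he
    have h7 := coeff_up hM h2 j (hr1 j) (i + 1) (by omega) hlt hMi a h5 h6
    refine ⟨⟨⟨hγ', ?_, ?_⟩, fun l hl => ?_⟩, h7.2⟩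
    · rw [h6]
      exact Vn_update h2 j (i + 1) hlt _
    · have e : ld u r γ' = ld u r γ := by
        funext x
        rcases x with x | x
        · exact h5 x 0 (by simp)
        · rw [ld_inr hr, ld_inr hr, h6, Function.update_of_ne]
          intro h8
          have h9 := congrArg Prod.fst h8
          have h10 := congrArg (fun p : Fin k × Fin (m + 1) => (p.2 : ℕ)) h8
          simp only at h9 h10
          rw [h9] at h10
          omega
      rw [e]
      exact h3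
    · rw [h7.1 (M + l) (by have := (Finset.mem_Icc.1 hl).2; omega)]
      exact h4 l hl
  have h1 := hensel_bij (h.isConstr_BAW (g := g) (M := M) hr hA i) (Ph u c m)
    (fun γ hγ γ' hγ' h1 => h.bij.injOn hγ.1.1 hγ'.1.1 h1)
    (fun γ => PowerSeries.coeff (M + (i + 1)) (Fv (eval u g) γ))
    (exists_coeff_poly (eval u g) (M + (i + 1))) (c j, ⟨r j + (i + 1), hlt⟩)
    (fun γ hγ a => by
      obtain ⟨γ', h2, h3⟩ := h.exists_up hγ.1.1 j hs a
      exact ⟨γ', (key γ hγ γ' h2 a h3).1, h3⟩)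
    (fun γ => eval (ld u r γ) (pderiv (Sum.inr j) (Gf g r M)))
    (fun γ hγ => hj _ hγ.1.2.2)
    (fun γ hγ γ' hγ' a h3 => (key γ hγ γ' hγ'.1.1 a h3).2)
  rw [hB] at h1
  exact h1

theorem Crd.cls_BAW (h : Crd u c W) (hM : ∀ v ∈ g.support, M ≤ wt r v) (hr1 : ∀ j, 1 ≤ r j)
    (hr : ∀ j, r j ≤ m) (hA : IsConstr A) (hAW : ∀ x ∈ A, (fun i => x (Sum.inl i)) ∈ W)
    (j : Fin k) (hj : ∀ x ∈ A, eval x (pderiv (Sum.inr j) (Gf g r M)) ≠ 0) {Q : ℕ}
    (hQ : n * (m + 1) = n + ∑ j, r j + Q) (i : ℕ) (hi : r j + i ≤ m) (hMi : M + i ≤ m) :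
    cls (BAW u g W m r M A i) * L ^ i = cls A * L ^ Q := by
  induction i with
  | zero =>
    rw [pow_zero, mul_one, ← h.cls_LAW hr1 hr hA hAW hQ]
    congr 1
    ext γ
    simp [BAW]
  | succ i ih =>
    rw [pow_succ', ← mul_assoc, (h.hensel_BAW hM hr1 hr hA j hj hi hMi).1, ih (by omega) (by omega)]

end SqA

end MPb07157
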