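import Pool.Agent.Lib.MP_b07157_agSA.L
import Pool.Agent.Lib.MP_b07157_agI.SqP3

/-!
# Semi-quasi-homogeneous along a set: the measure of the arcs of given weighted order
-/

noncomputable section

namespace MPb07157

open MvPolynomial

variable {n k : ℕ}

namespace SqA

variable {u : Fin k → MvPolynomial (Fin n) ℂ} {c : Fin k → Fin n} {W : Set (Fin n → ℂ)} {m : ℕ}
  {g : MvPolynomial (Fin k) (MvPolynomial (Fin n) ℂ)} {r d : Fin k → ℕ} {M : ℕ}

/-- The part of `XW` where `∂_j` is the first partial derivative which is not zero. -/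
def XWJ (g : MvPolynomial (Fin k) (MvPolynomial (Fin n) ℂ)) (W : Set (Fin n → ℂ)) (r : Fin k → ℕ)
    (M : ℕ) (d : Fin k → ℕ) (j : Fin k) : Set (Fin n ⊕ Fin k → ℂ) :=
  {x | x ∈ XW g W r M d ∧ ((∀ i ∈ Finset.univ.filter (· < j),
    eval x (pderiv (Sum.inr i) (Gf g r M)) = 0) ∧
    eval x (pderiv (Sum.inr j) (Gf g r M)) ≠ 0)}

theorem isConstr_XWJ (g : MvPolynomial (Fin k) (MvPolynomial (Fin n) ℂ)) {W : Set (Fin n → ℂ)}
    (hW : IsConstr W) (r : Fin k → ℕ) (M : ℕ) (d : Fin k → ℕ) (j : Fin k) :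
    IsConstr (XWJ g W r M d j) :=
  isConstr_setOf_and (isConstr_XW g hW r M d) (isConstr_setOf_and
    (isConstr_forall_mem _ _ fun _ _ => isConstr_eq_zero _) (isConstr_ne_zero _))

theorem disjoint_XWJ (g : MvPolynomial (Fin k) (MvPolynomial (Fin n) ℂ)) (W : Set (Fin n → ℂ))
    (r : Fin k → ℕ) (M : ℕ) (d : Fin k → ℕ) {i j : Fin k} (hij : i ≠ j) :
    Disjoint (XWJ g W r M d i) (XWJ g W r M d j) := by
  rw [Set.disjoint_left]
  rintro x ⟨-, h1, h2⟩ ⟨-, h3, h4⟩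
  rcases lt_or_gt_of_ne hij with h5 | h5
  · exact h2 (h3 i (Finset.mem_filter.2 ⟨Finset.mem_univ i, h5⟩))
  · exact h4 (h1 j (Finset.mem_filter.2 ⟨Finset.mem_univ j, h5⟩))

theorem XW_eq (hnd : ∀ x ∈ UW W d, ∃ j, eval x (pderiv (Sum.inr j) (Gf g r M)) ≠ 0) :
    XW g W r M d = ⋃ j ∈ (Finset.univ : Finset (Fin k)), XWJ g W r M d j := by
  classical
  ext x
  simp only [Set.mem_iUnion, Finset.mem_univ, exists_prop, true_and]
  constructor
  · intro hx
    obtain ⟨j, hj⟩ := hnd x hx.1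
    have hne : (Finset.univ.filter fun j =>
      eval x (pderiv (Sum.inr j) (Gf g r M)) ≠ 0).Nonempty := ⟨j, by simpa using hj⟩
    refine ⟨Finset.min' _ hne, hx, fun i hi => ?_, ?_⟩
    · by_contra hcon
      have hmem : i ∈ Finset.univ.filter fun j =>
          eval x (pderiv (Sum.inr j) (Gf g r M)) ≠ 0 :=
        Finset.mem_filter.2 ⟨Finset.mem_univ i, hcon⟩
      have h1 := Finset.min'_le _ i hmem
      rw [Finset.mem_filter] at hi
      exact absurd hi.2 (not_lt.2 h1)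
    · exact (Finset.mem_filter.1 (Finset.min'_mem _ hne)).2
  · rintro ⟨j, hx⟩
    exact hx.1

/-- The arcs of minimal order. -/
theorem arcs_zero (hM : ∀ v ∈ g.support, m ≤ wt r v) :
    arcs (eval u g) (m + 1) m ∩ LAW u W m r (UW W d) = LAW u W m r (YW g W r m d) := by
  ext γ
  rw [Set.mem_inter_iff, mem_arcs_iff]
  simp only [LAW, YW, Set.mem_ofPred_eq]
  constructor
  · rintro ⟨⟨h1, h2⟩, h3, h4, h5⟩
    exact ⟨h3, h4, h5, by rwa [← coeff_M hM h4 le_rfl]⟩
  · rintro ⟨h3, h4, h5, h6⟩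
    rw [← coeff_M hM h4 le_rfl] at h6
    exact ⟨⟨h6, fun i hi => coeff_lt hM h4 hi hi.le⟩, h3, h4, h5⟩

attribute [local irreducible] K0.instCommRing

/-- The arcs of larger order. -/
theorem Crd.cls_arcs_pos (h : Crd u c W) {i : ℕ} (hM : ∀ v ∈ g.support, M ≤ wt r v)
    (hr1 : ∀ j, 1 ≤ r j) (hrM : ∀ j, r j ≤ M)
    (hnd : ∀ x ∈ UW W d, ∃ j, eval x (pderiv (Sum.inr j) (Gf g r M)) ≠ 0) {Q : ℕ}
    (hm : m = M + (i + 1)) (hQ : n * (m + 1) = n + ∑ j, r j + Q) :
    cls (arcs (eval u g) (m + 1) m ∩ LAW u W m r (UW W d)) * L ^ (i + 1) =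
      cls (XW g W r M d) * L ^ Q * (L - 1) := by
  classical
  have hr : ∀ j, r j ≤ m := fun j => (hrM j).trans (by omega)
  let V : Fin k → Set (Fin n × Fin (m + 1) → ℂ) := fun j =>
    {γ | γ ∈ BAW u g W m r M (XWJ g W r M d j) i ∧
      PowerSeries.coeff (M + (i + 1)) (Fv (eval u g) γ) ≠ 0}
  have hV : arcs (eval u g) (m + 1) m ∩ LAW u W m r (UW W d) =
      ⋃ j ∈ (Finset.univ : Finset (Fin k)), V j := by
    ext γ
    rw [Set.mem_inter_iff, mem_arcs_iff]
    simp only [Set.mem_iUnion, Finset.mem_univ, exists_prop, true_and, V, Set.mem_ofPred_eq, BAW,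
      Finset.mem_Icc]
    constructor
    · rintro ⟨⟨h1, h2⟩, h3, h4, h5⟩
      have h6 : ld u r γ ∈ XW g W r M d := by
        refine ⟨h5, ?_⟩
        rw [← coeff_M hM h4 (by omega)]
        exact h2 M (by omega)
      rw [XW_eq hnd] at h6
      simp only [Set.mem_iUnion, Finset.mem_univ, exists_prop, true_and] at h6
      obtain ⟨j, h6⟩ := h6
      exact ⟨j, ⟨⟨h3, h4, h6⟩, fun l hl => h2 _ (by omega)⟩, by rw [← hm]; exact h1⟩
    · rintro ⟨j, ⟨⟨h1, h2, h3⟩, h4⟩, h5⟩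
      have h7 : PowerSeries.coeff m (Fv (eval u g) γ) =
          PowerSeries.coeff (M + (i + 1)) (Fv (eval u g) γ) :=
        congrArg (fun t => PowerSeries.coeff t (Fv (eval u g) γ)) hm
      refine ⟨⟨by rw [h7]; exact h5, fun l hl => ?_⟩, h1, h2, h3.1.1⟩
      rcases lt_trichotomy l M with h6 | h6 | h6
      · exact coeff_lt hM h2 h6 (by omega)
      · rw [h6, coeff_M hM h2 (by omega)]
        exact h3.1.2
      · obtain ⟨t, rfl⟩ := Nat.exists_eq_add_of_lt h6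
        rw [add_assoc]
        exact h4 (t + 1) ⟨by omega, by omega⟩
  have hVc : ∀ j ∈ (Finset.univ : Finset (Fin k)), IsConstr (V j) := fun j _ =>
    isConstr_setOf_and (h.isConstr_BAW hr (isConstr_XWJ g h.hW r M d j) i) (isConstr_setOf_not
      (isConstr_coeff _ _ _))
  have hVd : ∀ i ∈ (Finset.univ : Finset (Fin k)), ∀ j ∈ (Finset.univ : Finset (Fin k)), i ≠ j →
      Disjoint (V i) (V j) := by
    intro i hi j hj hij
    rw [Set.disjoint_left]
    rintro γ ⟨⟨⟨-, -, h1⟩, -⟩, -⟩ ⟨⟨⟨-, -, h2⟩, -⟩, -⟩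
    exact Set.disjoint_left.1 (disjoint_XWJ g W r M d hij) h1 h2
  rw [hV, cls_biUnion _ _ hVc hVd, XW_eq hnd,
    cls_biUnion _ _ (fun j _ => isConstr_XWJ g h.hW r M d j) (fun i _ j _ hij =>
      disjoint_XWJ g W r M d hij), Finset.sum_mul, Finset.sum_mul, Finset.sum_mul]
  refine Finset.sum_congr rfl fun j _ => ?_
  have hj : r j + (i + 1) ≤ m := by have := hrM j; omega
  have hMi : M + (i + 1) ≤ m := hm.ge
  have h1 := (h.hensel_BAW (i := i) hM hr1 hr (isConstr_XWJ g h.hW r M d j) j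
    (fun x hx => hx.2.2) hj hMi).2
  have h2 := h.cls_BAW hM hr1 hr (isConstr_XWJ g h.hW r M d j) (fun x hx => hx.1.1.1) j
    (fun x hx => hx.2.2) hQ (i + 1) hj hMi
  simp only [V]
  rw [h1, ← h2]
  ring

/-- The measure of the arcs of given weighted order with `ord f = m`. -/
def aW (e : ℕ) (x y : Mot) (M m : ℕ) : Mot :=
  ↑((LU ^ e)⁻¹) * if m < M then 0 else if m = M then y
    else x * ((LU : Mot) - 1) * (↑(LU⁻¹) : Mot) ^ (m - M)

theorem Crd.measure (h : Crd u c W) (hM : ∀ v ∈ g.support, M ≤ wt r v) (hr1 : ∀ j, 1 ≤ r j)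
    (hrM : ∀ j, r j ≤ M) (hrm : ∀ j, r j ≤ m)
    (hnd : ∀ x ∈ UW W d, ∃ j, eval x (pderiv (Sum.inr j) (Gf g r M)) ≠ 0) :
    ↑((LU ^ (n * (m + 1)))⁻¹) * clsM (arcs (eval u g) (m + 1) m ∩ LAW u W m r (UW W d)) =
      aW (n + ∑ j, r j) (clsM (XW g W r M d)) (clsM (YW g W r M d)) M m := by
  have hkn : k ≤ n := by simpa using Fintype.card_le_of_injective c h.hc
  have hle : n + ∑ j, r j ≤ n * (m + 1) := by
    have h1 : ∑ j : Fin k, r j ≤ ∑ _j : Fin k, m := Finset.sum_le_sum fun j _ => hrm j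
    rw [Finset.sum_const, Finset.card_univ, Fintype.card_fin, smul_eq_mul] at h1
    have h2 : k * m ≤ n * m := Nat.mul_le_mul_right m hkn
    rw [mul_add, mul_one]
    omega
  obtain ⟨Q, hQ⟩ := Nat.exists_eq_add_of_le hle
  have hLQ : (↑((LU ^ (n * (m + 1)))⁻¹) : Mot) * (LU : Mot) ^ Q =
      ↑((LU ^ (n + ∑ j, r j))⁻¹) := by
    rw [← Units.val_pow_eq_pow_val, ← Units.val_mul]
    congr 1
    rw [hQ, pow_add, mul_inv, mul_assoc, inv_mul_cancel, mul_one]
  unfold aW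
  rcases lt_trichotomy m M with h1 | h1 | h1
  · rw [if_pos h1, mul_zero]
    have : arcs (eval u g) (m + 1) m ∩ LAW u W m r (UW W d) = ∅ := by
      rw [Set.eq_empty_iff_forall_notMem]
      rintro γ ⟨h2, h3, h4, -⟩
      rw [mem_arcs_iff] at h2
      exact h2.1 (coeff_lt hM h4 h1 le_rfl)
    rw [this]
    unfold clsM
    rw [cls_empty, map_zero, mul_zero]
  · subst h1
    rw [if_neg (lt_irrefl _), if_pos rfl, arcs_zero hM, ← hLQ]
    unfold clsM
    rw [h.cls_LAW hr1 hrm (isConstr_YW g h.hW r m d) (fun x hx => hx.1.1) hQ, map_mul, map_pow,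
      ← LU_val]
    ring
  · rw [if_neg (by omega), if_neg (by omega), ← hLQ]
    obtain ⟨i, hi⟩ : ∃ i, m = M + (i + 1) := ⟨m - M - 1, by omega⟩
    have h2 := congrArg (algebraMap K0 Mot) (h.cls_arcs_pos hM hr1 hrM hnd hi hQ)
    rw [map_mul, map_mul, map_mul, map_pow, map_pow, map_sub, map_one, ← LU_val] at h2
    have h3 : clsM (arcs (eval u g) (m + 1) m ∩ LAW u W m r (UW W d)) =
        clsM (XW g W r M d) * (LU : Mot) ^ Q * ((LU : Mot) - 1) * (↑(LU⁻¹) : Mot) ^ (i + 1) := by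
      unfold clsM
      rw [← h2, mul_assoc, ← mul_pow, Units.mul_inv, one_pow, mul_one]
    rw [h3, hi, Nat.add_sub_cancel_left]
    ring

theorem mk_aW_mem {s₀ : ℚ} (hs : s₀ ≠ -1) (e : ℕ) (x y : Mot) (M : ℕ) :
    PowerSeries.mk (aW e x y M) ∈ regularAt s₀ := by
  have e' : PowerSeries.mk (aW e x y M) =
      PowerSeries.C (↑((LU ^ e)⁻¹) : Mot) * PowerSeries.X ^ M *
        (PowerSeries.C y + PowerSeries.C (x * ((LU : Mot) - 1)) * (geoS - 1)) := by
    ext m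
    rw [PowerSeries.coeff_mk, mul_assoc, PowerSeries.coeff_C_mul, PowerSeries.coeff_X_pow_mul']
    unfold aW
    congr 1
    rcases lt_trichotomy m M with h1 | h1 | h1
    · rw [if_pos h1, if_neg (by omega)]
    · rw [if_neg (by omega), if_pos h1, if_pos (by omega), h1, Nat.sub_self]
      simp [geoS]
    · rw [if_neg (by omega), if_neg (by omega), if_pos (by omega)]
      obtain ⟨k, rfl⟩ : ∃ k, m = M + (k + 1) := ⟨m - M - 1, by omega⟩
      rw [Nat.add_sub_cancel_left, map_add, PowerSeries.coeff_C, if_neg (by omega), zero_add,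
        PowerSeries.coeff_C_mul, map_sub, PowerSeries.coeff_one, if_neg (by omega), sub_zero]
      unfold geoS
      rw [PowerSeries.coeff_mk]
  rw [e']
  refine mul_mem (mul_mem (C_mem_regularAt s₀ _) (pow_mem (X_mem_regularAt s₀) _))
    (add_mem (C_mem_regularAt s₀ _) (mul_mem (C_mem_regularAt s₀ _)
      (sub_mem (geoS_mem hs) (one_mem _))))

end SqA

end MPb07157
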