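import Pool.Agent.Lib.MP_b07157_agSA.M
import Pool.Agent.Lib.MP_b07157_agM.StrZ

/-!
# Semi-quasi-homogeneous along a set: the zeta function
-/

noncomputable section

namespace MPb07157

open MvPolynomial

variable {n k : ℕ}

namespace SqA

open Sq

/-- The hypotheses on `g`. -/
structure Hyp (g : MvPolynomial (Fin k) (MvPolynomial (Fin n) ℂ)) (W : Set (Fin n → ℂ))
    (w : Fin k → ℕ) (N : ℕ) : Prop where
  hN : 0 < N
  hw : ∀ j, 0 < w j
  hwN : ∀ j, w j < N
  ge : ∀ v ∈ g.support, N ≤ wt w v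
  sqh : ∀ p ∈ W, Sqh (map (eval p) g) w N

/-- The measure of the arcs of weighted order `p`. -/
def APW (g : MvPolynomial (Fin k) (MvPolynomial (Fin n) ℂ)) (W : Set (Fin n → ℂ))
    (w : Fin k → ℕ) (N p m : ℕ) : Mot :=
  aW (n + ∑ j, rP w p j) (clsM (XW g W (rP w p) (MP w N p) (dP w p)))
    (clsM (YW g W (rP w p) (MP w N p) (dP w p))) (MP w N p) m

variable {u : Fin k → MvPolynomial (Fin n) ℂ} {c : Fin k → Fin n} {W : Set (Fin n → ℂ)} {m : ℕ}
  {g : MvPolynomial (Fin k) (MvPolynomial (Fin n) ℂ)} {w : Fin k → ℕ} {N : ℕ}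

theorem Hyp.le (H : Hyp g W w N) {p : ℕ} (hp : 0 < p) :
    ∀ v ∈ g.support, MP w N p ≤ wt (rP w p) v :=
  fun v hv => (num_P (N := N) H.hw hp).le (H.ge v hv)

theorem one_le_rP (hw : ∀ j, 0 < w j) {p : ℕ} (hp : 0 < p) (j : Fin k) : 1 ≤ rP w p j := by
  have h1 := (num_P (N := 0) hw hp).hr j
  have h2 : 0 < w j * p := Nat.mul_pos (hw j) hp
  rcases Nat.eq_zero_or_pos (rP w p j) with h3 | h3
  · rw [h3, mul_zero] at h1
    omega
  · exact h3

/-- The arcs of weighted order `p` with `ord = m`. -/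
def SP (u : Fin k → MvPolynomial (Fin n) ℂ) (g : MvPolynomial (Fin k) (MvPolynomial (Fin n) ℂ))
    (W : Set (Fin n → ℂ)) (w : Fin k → ℕ) (p m : ℕ) : Set (Fin n × Fin (m + 1) → ℂ) :=
  arcs (eval u g) (m + 1) m ∩ LAW u W m (rP w p) (UW W (dP w p))

theorem Hyp.SP_empty (H : Hyp g W w N) {p : ℕ} (hp : 0 < p) (hm : m < MP w N p) :
    SP u g W w p m = ∅ := by
  rw [Set.eq_empty_iff_forall_notMem]
  rintro γ ⟨h2, h3, h4, -⟩
  rw [mem_arcs_iff] at h2
  exact h2.1 (coeff_lt (H.le hp) h4 hm le_rfl)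

theorem Crd.isConstr_SP (h : Crd u c W) (H : Hyp g W w N) {p : ℕ} (hp : 0 < p) :
    IsConstr (SP u g W w p m) := by
  by_cases hm : m < MP w N p
  · rw [H.SP_empty hp hm]
    exact IsConstr.empty
  · refine (isConstr_arcs _ _ _).inter (h.isConstr_LAW (fun j => ?_) (isConstr_UW h.hW _))
    exact (rP_le_MP (fun j => (H.hwN j).le) p j).trans (by omega)

theorem Crd.measure_SP (h : Crd u c W) (H : Hyp g W w N) {p : ℕ} (hp : 0 < p) (m : ℕ) :
    ↑((LU ^ (n * (m + 1)))⁻¹) * clsM (SP u g W w p m) = APW g W w N p m := by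
  by_cases hm : m < MP w N p
  · rw [H.SP_empty hp hm]
    unfold APW aW clsM
    rw [cls_empty, map_zero, mul_zero, if_pos hm, mul_zero]
  · have hrM := rP_le_MP (fun j => (H.hwN j).le) p (w := w) (N := N)
    exact h.measure (H.le hp) (one_le_rP H.hw hp) hrM (fun j => (hrM j).trans (by omega))
      fun x hx => exists_dir H.sqh (num_P H.hw hp) hx

theorem Crd.APW_add (h : Crd u c W) (H : Hyp g W w N) {p : ℕ} (hp : 0 < p) (m : ℕ) :
    APW g W w N (p + Wt w) (m + N) = ↑((LU ^ (∑ j, w j))⁻¹) * APW g W w N p m := by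
  have h1 := num_P (N := N) H.hw hp
  have h2 := num_P (N := N) H.hw (p := p + Wt w) (by omega)
  rw [KP_add H.hw, dP_add H.hw] at h2
  have h3 := clsM_XW h.hW H.sqh h1 h2
  have h4 := clsM_YW g (rP w p) (MP w N p) (dP w p) h.hW
  have h5 := clsM_YW g (rP w (p + Wt w)) (MP w N (p + Wt w)) (dP w p) h.hW
  rw [← h3, ← h4] at h5
  unfold APW aW
  rw [dP_add H.hw, ← h3, h5]
  have h6 : n + ∑ j, rP w (p + Wt w) j = ∑ j, w j + (n + ∑ j, rP w p j) := by
    simp only [rP_add H.hw]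
    rw [Finset.sum_add_distrib]
    omega
  rw [h6, pow_add, mul_inv, Units.val_mul, mul_assoc, MP_add H.hw]
  congr 2
  rcases lt_trichotomy m (MP w N p) with h7 | h7 | h7
  · rw [if_pos h7, if_pos (by omega)]
  · rw [if_neg (by omega), if_pos (by omega), if_neg (by omega), if_pos h7]
  · rw [if_neg (by omega), if_neg (by omega), if_neg (by omega), if_neg (by omega)]
    congr 2
    omega

theorem APW_lt (hw : ∀ j, 0 < w j) {p m : ℕ} (hm : m < N) : APW g W w N (p + Wt w) m = 0 := by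
  unfold APW aW
  rw [MP_add hw, if_pos (by omega), mul_zero]

/-! ### The partition -/

theorem mem_LAW_iff {r d : Fin k → ℕ} {γ : Fin n × Fin (m + 1) → ℂ} (hγ : γ ∈ AtW W m) :
    γ ∈ LAW u W m r (UW W d) ↔ Yj u γ ∈ LA (m + 1) r (Ud d) := by
  constructor
  · rintro ⟨-, h1, -, h2⟩
    exact ⟨h1, h2⟩
  · rintro ⟨h1, h2⟩
    exact ⟨hγ, h1, hγ, h2⟩

theorem Crd.arcs_eq (h : Crd u c W) (H : Hyp g W w N) (m P : ℕ) (hP : Wt w * m ≤ P) :
    arcs (eval u g) (m + 1) m ∩ AtW W m = ⋃ p ∈ Finset.range P, SP u g W w (p + 1) m := by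
  ext γ
  simp only [Set.mem_iUnion, Finset.mem_range, exists_prop]
  constructor
  · rintro ⟨h1, h2⟩
    have hne : ∃ q, Yj u γ q ≠ 0 := by
      by_contra hcon
      push Not at hcon
      have h3 := ((mem_arcs_iff _ _ _ _).1 h1).1
      apply h3
      refine coeff_lt (u := u) (g := g) (r := fun _ => m + 1) (M := m + 1) (fun v hv => ?_)
        (fun j s _ => hcon (j, s)) (Nat.lt_succ_self m) le_rfl
      have h4 := H.ge v hv
      have h5 : ∃ j, v j ≠ 0 := by
        by_contra h6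
        push Not at h6
        have h7 : wt w v = 0 := Finset.sum_eq_zero fun j _ => by rw [h6 j, mul_zero]
        have := H.hN
        omega
      obtain ⟨j, hj⟩ := h5
      exact wt_le_of_ne (a := fun _ : Fin k => m + 1) hj
    obtain ⟨p, hp, h3⟩ := exists_p H.hw hne (h.Yj_zero h2)
    obtain ⟨q, rfl⟩ : ∃ q, p = q + 1 := ⟨p - 1, by omega⟩
    refine ⟨q, ?_, h1, (mem_LAW_iff h2).2 h3⟩
    have hnum := num_P (N := N) H.hw hp
    have h5 : MP w N (q + 1) ≤ m := by
      by_contra hcon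
      push Not at hcon
      exact ((mem_arcs_iff _ _ _ _).1 h1).1 (coeff_lt (H.le hp) h3.1 hcon le_rfl)
    have h6 := hnum.hM
    have h7 : Wt w * MP w N (q + 1) ≤ Wt w * m := Nat.mul_le_mul_left _ h5
    have h8 : (q + 1) * 1 ≤ (q + 1) * N := Nat.mul_le_mul_left _ H.hN
    omega
  · rintro ⟨p, -, h1, h2, -⟩
    exact ⟨h1, h2⟩

theorem Crd.coeff_series (h : Crd u c W) (H : Hyp g W w N) (m P : ℕ) (hP : Wt w * m ≤ P) :
    PowerSeries.coeff m (seriesAt (eval u g) W) =
      ∑ p ∈ Finset.range P, APW g W w N (p + 1) m := by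
  unfold seriesAt
  rw [PowerSeries.coeff_mk, h.arcs_eq H m P hP]
  have h3 : clsM (⋃ p ∈ Finset.range P, SP u g W w (p + 1) m) =
      ∑ p ∈ Finset.range P, clsM (SP u g W w (p + 1) m) := by
    unfold clsM
    rw [cls_biUnion _ _ (fun p _ => h.isConstr_SP H (Nat.succ_pos p)), map_sum]
    intro p _ q _ hpq
    rw [Set.disjoint_left]
    rintro γ ⟨-, h1⟩ ⟨-, h2⟩
    exact Set.disjoint_left.1 (disjoint_LA_P (m := m) H.hw (p := p + 1) (q := q + 1) (by omega))
      ((mem_LAW_iff h1.1).1 h1) ((mem_LAW_iff h2.1).1 h2)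
  rw [h3, Finset.mul_sum]
  exact Finset.sum_congr rfl fun p _ => h.measure_SP H (Nat.succ_pos p) m

theorem Crd.series_mul (h : Crd u c W) (H : Hyp g W w N) :
    seriesAt (eval u g) W *
        (1 - PowerSeries.C (↑((LU ^ (∑ j, w j))⁻¹) : Mot) * PowerSeries.X ^ N) =
      ∑ p ∈ Finset.range (Wt w), PowerSeries.mk (APW g W w N (p + 1)) := by
  ext m
  rw [mul_sub, mul_one, map_sub, map_sum]
  simp only [PowerSeries.coeff_mk]
  have e1 : seriesAt (eval u g) W *
      (PowerSeries.C (↑((LU ^ (∑ j, w j))⁻¹) : Mot) * PowerSeries.X ^ N) =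
      PowerSeries.C (↑((LU ^ (∑ j, w j))⁻¹) : Mot) *
        (seriesAt (eval u g) W * PowerSeries.X ^ N) := by ring
  rw [e1, PowerSeries.coeff_C_mul, PowerSeries.coeff_mul_X_pow',
    h.coeff_series H m (Wt w + Wt w * m) (by omega), Finset.sum_range_add]
  have e2 : ∑ p ∈ Finset.range (Wt w * m), APW g W w N (Wt w + p + 1) m =
      ↑((LU ^ (∑ j, w j))⁻¹) * if N ≤ m then PowerSeries.coeff (m - N)
        (seriesAt (eval u g) W) else 0 := by
    split_ifs with hm
    · rw [h.coeff_series H (m - N) (Wt w * m)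
        (Nat.mul_le_mul_left _ (Nat.sub_le _ _)), Finset.mul_sum]
      refine Finset.sum_congr rfl fun p _ => ?_
      rw [← h.APW_add H (Nat.succ_pos p)]
      congr 1
      · omega
      · omega
    · rw [mul_zero]
      refine Finset.sum_eq_zero fun p _ => ?_
      rw [show Wt w + p + 1 = (p + 1) + Wt w by omega]
      exact APW_lt H.hw (by omega)
  rw [e2]
  ring

theorem Crd.series_mem (h : Crd u c W) (H : Hyp g W w N) {s₀ : ℚ} (hs : s₀ ≠ -1)
    (hs' : s₀ * N ≠ -∑ j, (w j : ℚ)) : seriesAt (eval u g) W ∈ regularAt s₀ := by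
  have hN := H.hN
  set φ : PowerSeries Mot :=
    1 - PowerSeries.C (↑((LU ^ (∑ j, w j))⁻¹) : Mot) * PowerSeries.X ^ N with hφ
  have hc : PowerSeries.constantCoeff φ = ((1 : Motˣ) : Mot) := by
    rw [hφ, map_sub, map_one, map_mul, map_pow, PowerSeries.constantCoeff_X, zero_pow (by omega),
      mul_zero, sub_zero, Units.val_one]
  have hG := PowerSeries.mul_invOfUnit φ 1 hc
  set G := PowerSeries.invOfUnit φ 1 with hGdef
  have hmem : G ∈ regularAt s₀ := by
    refine Algebra.subset_adjoin (Or.inr ⟨((∑ j, w j : ℕ) : ℤ), N, hN, ?_, ?_⟩)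
    · intro h
      apply hs'
      have hNQ : (N : ℚ) ≠ 0 := by exact_mod_cast hN.ne'
      rw [div_eq_iff hNQ] at h
      push_cast at h
      linarith
    · rw [zpow_neg, zpow_natCast, mul_comm]
      exact hG
  have hZ : seriesAt (eval u g) W =
      (∑ p ∈ Finset.range (Wt w), PowerSeries.mk (APW g W w N (p + 1))) * G := by
    rw [← h.series_mul H, mul_assoc, hG, mul_one]
  rw [hZ]
  refine mul_mem (sum_mem fun p _ => ?_) hmem
  exact mk_aW_mem hs _ _ _ _

/-- Units do not change the series. -/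
theorem seriesAt_unit {f a : MvPolynomial (Fin n) ℂ} (ha : ∀ p ∈ W, eval p a ≠ 0) :
    seriesAt f W = seriesAt (a * f) W := by
  ext m
  unfold seriesAt
  rw [PowerSeries.coeff_mk, PowerSeries.coeff_mk]
  congr 2
  ext γ
  rw [Set.mem_inter_iff, Set.mem_inter_iff]
  refine and_congr_left fun hγ => ?_
  simp only [arcs, Set.mem_ofPred_eq]
  rw [map_mul, Str.order_unit_mul]
  rw [Str.constantCoeff_aeval_arc]
  exact ha _ hγ

end SqA

end MPb07157
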